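import Pool.Agent.L0h34.OM.Target

/-! # The reduction -/

set_option autoImplicit false

namespace Pool.Agent.L0h34.OM

open Function

/-- The program stops after at most `T` steps. -/
def Go (G : Oracle) (u : Prog) (σ : Store) (T : ℕ) (τ : Store) : Prop :=
  ∃ s, Reach G s u σ T τ

namespace Go

variable {G : Oracle} {u v w : Prog} {σ τ ρ : Store} {T T' : ℕ} {r q d : ℕ}
  {l : List (List Bool)} {x : List Bool}

theorem mono (h : Go G u σ T τ) (hT : T ≤ T') : Go G u σ T' τ := by
  obtain ⟨s, h⟩ := h
  exact ⟨s, h.mono hT⟩

theorem seq (h : Go G u σ T τ) (h' : Go G v τ T' ρ) : Go G (.seq u v) σ (T + T') ρ := by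
  obtain ⟨s, h⟩ := h
  obtain ⟨s', h'⟩ := h'
  exact ⟨max s s', (h.mono_space (le_max_left _ _)).seq (h'.mono_space (le_max_right _ _))⟩

theorem nop : Go G .nop σ 1 σ := ⟨0, Reach.nop⟩

theorem put (b : Bool) (hr : r < l.length) :
    Go G (.put r b) (st l) 1 (st (l.set r (st l r ++ [b]))) := ⟨_, Reach.put' b hr le_rfl⟩

theorem copy (hr : q < l.length) :
    Go G (.copy r q) (st l) ((st l r).length + 1) (st (l.set q (st l r))) :=
  ⟨_, Reach.copy' hr le_rfl⟩

theorem take_nil (h0 : σ r = []) (h : Go G u σ T τ) : Go G (.take r u v w) σ (T + 1) τ := by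
  obtain ⟨s, h⟩ := h
  exact ⟨s, Reach.take_nil h0 h⟩

theorem take_true (hr : r < l.length) (h0 : st l r = true :: x)
    (h : Go G w (st (l.set r x)) T τ) : Go G (.take r u v w) (st l) (T + 1) τ := by
  obtain ⟨s, h⟩ := h
  exact ⟨s, Reach.take_true' hr h0 h⟩

theorem clear (hr : r < l.length) :
    Go G (.clear r) (st l) (3 * (st l r).length + 1) (st (l.set r [])) := ⟨0, Reach.clear' hr⟩

theorem app (hq : q < l.length) (hd : d < l.length) (hdq : d ≠ q) :
    Go G (.app r q d) (st l) (4 * (st l r).length + 2)
      (st ((l.set q (st l q ++ st l r)).set d [])) := ⟨_, Reach.app' hq hd hdq le_rfl⟩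

theorem loop_nil (h0 : σ r = []) : Go G (.loop r u) σ 1 σ := ⟨0, Reach.loop_nil h0⟩

theorem loop_cons (h0 : σ r ≠ []) (h : Go G u σ T τ) (h' : Go G (.loop r u) τ T' ρ) :
    Go G (.loop r u) σ (T + T' + 1) ρ := by
  obtain ⟨s, h⟩ := h
  obtain ⟨s', h'⟩ := h'
  exact ⟨max s s', Reach.loop_cons h0 (h.mono_space (le_max_left _ _))
    (h'.mono_space (le_max_right _ _))⟩

theorem each_nil (h0 : σ r = []) : Go G (.each r v w) σ 1 σ := ⟨0, Reach.each_nil h0⟩

theorem each_cons (b : Bool) (hr : r < l.length) (h0 : st l r = b :: x)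
    (h : Go G v (st (l.set r x)) T τ) (h' : Go G (.each r v v) τ T' ρ) :
    Go G (.each r v v) (st l) (T + T' + 2) ρ := by
  obtain ⟨s, h⟩ := h
  obtain ⟨s', h'⟩ := h'
  rcases b with - | -
  · exact ⟨max s s', Reach.each_false' hr h0 (h.mono_space (le_max_left _ _))
      (h'.mono_space (le_max_right _ _))⟩
  · exact ⟨max s s', Reach.each_true' hr h0 (h.mono_space (le_max_left _ _))
      (h'.mono_space (le_max_right _ _))⟩

end Go

/-- `u` leads from `S x` to `S' x` in polynomial time. -/
def Comp (G : Oracle) (u : Prog) (S S' : List Bool → Store) : Prop :=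
  ∃ F : ℕ → ℕ, PB F ∧ ∀ x, Go G u (S x) (F x.length) (S' x)

theorem Comp.seq {G : Oracle} {u v : Prog} {S S' S'' : List Bool → Store} (h : Comp G u S S')
    (h' : Comp G v S' S'') : Comp G (.seq u v) S S'' := by
  obtain ⟨F, hF, h⟩ := h
  obtain ⟨F', hF', h'⟩ := h'
  exact ⟨_, hF.add hF', fun x => (h x).seq (h' x)⟩

/-- The string of `n` ones. -/
abbrev ones (n : ℕ) : List Bool := List.replicate n true

theorem ones_add (n m : ℕ) : ones n ++ ones m = ones (n + m) := by simp [ones]

/-- Repeat a program. -/
def iter (u : Prog) : ℕ → Prog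
  | 0 => .nop
  | n + 1 => .seq (iter u n) u

section

variable {G : Oracle} {x K W N P E a c d q r go : List Bool}

theorem go_ones (l : List Bool) (j : ℕ) :
    Go G (.each 5 (.put 3 true) (.put 3 true)) (st [x, K, W, ones j, P, l, a, c, d, q, r, go])
      (3 * l.length + 1) (st [x, K, W, ones (j + l.length), P, [], a, c, d, q, r, go]) := by
  induction l generalizing j with
  | nil => exact Go.each_nil rfl
  | cons b l ih =>
    have h1 : Go G (.put 3 true) (st [x, K, W, ones j, P, l, a, c, d, q, r, go]) 1
      (st [x, K, W, ones j ++ ones 1, P, l, a, c, d, q, r, go]) := Go.put true (by simp)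
    rw [ones_add] at h1
    have h2 := ih (j + 1)
    have e1 : j + 1 + l.length = j + (b :: l).length := by simp only [List.length_cons]; omega
    rw [e1] at h2
    exact (Go.each_cons b (by simp) rfl h1 h2).mono (by simp only [List.length_cons]; omega)

theorem go_puts (C j : ℕ) :
    Go G (iter (.put 3 true) C) (st [x, K, W, ones j, P, E, a, c, d, q, r, go])
      (C + 1) (st [x, K, W, ones (j + C), P, E, a, c, d, q, r, go]) := by
  induction C with
  | zero => exact Go.nop
  | succ C ih =>
    have h1 : Go G (.put 3 true) (st [x, K, W, ones (j + C), P, E, a, c, d, q, r, go]) 1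
      (st [x, K, W, ones (j + C) ++ ones 1, P, E, a, c, d, q, r, go]) := Go.put true (by simp)
    rw [ones_add] at h1
    exact ih.seq h1

theorem go_mulEach (l : List Bool) (p j : ℕ) :
    Go G (.each 5 (.app 4 7 8) (.app 4 7 8)) (st [x, K, W, N, ones p, l, a, ones j, [], q, r, go])
      (l.length * (4 * p + 4) + 1)
      (st [x, K, W, N, ones p, [], a, ones (j + l.length * p), [], q, r, go]) := by
  induction l generalizing j with
  | nil =>
    simp only [List.length_nil, Nat.zero_mul, Nat.add_zero, Nat.zero_add]
    exact Go.each_nil rfl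
  | cons b l ih =>
    have h1 : Go G (.app 4 7 8) (st [x, K, W, N, ones p, l, a, ones j, [], q, r, go])
        (4 * (ones p).length + 2)
        (st [x, K, W, N, ones p, l, a, ones j ++ ones p, [], q, r, go]) :=
      Go.app (by simp) (by simp) (by simp)
    rw [ones_add] at h1
    have h2 := ih (j + p)
    have e1 : j + p + l.length * p = j + (b :: l).length * p := by
      simp only [List.length_cons]; ring
    rw [e1] at h2
    refine (Go.each_cons b (by simp) rfl h1 h2).mono ?_
    simp only [List.length_cons, List.length_replicate, ones]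
    ring_nf
    omega

/-- Multiply the length of register `4` by that of register `3`. -/
def mulProg : Prog := .seq (.copy 3 5) (.seq (.each 5 (.app 4 7 8) (.app 4 7 8))
  (.seq (.copy 7 4) (.clear 7)))

theorem go_mul (m p : ℕ) :
    Go G mulProg (st [x, K, W, ones m, ones p, [], a, [], [], q, r, go])
      (10 * m * p + 10 * m + 10)
      (st [x, K, W, ones m, ones (m * p), [], a, [], [], q, r, go]) := by
  have h1 : Go G (.copy 3 5) (st [x, K, W, ones m, ones p, [], a, [], [], q, r, go])
      ((ones m).length + 1)
      (st [x, K, W, ones m, ones p, ones m, a, [], [], q, r, go]) := Go.copy (by simp)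
  have h2 := go_mulEach (G := G) (x := x) (K := K) (W := W) (N := ones m) (a := a) (q := q)
    (r := r) (go := go) (ones m) p 0
  simp only [Nat.zero_add, List.length_replicate, ones] at h2
  have h3 : Go G (.copy 7 4) (st [x, K, W, ones m, ones p, [], a, ones (m * p), [], q, r, go])
      ((ones (m * p)).length + 1)
      (st [x, K, W, ones m, ones (m * p), [], a, ones (m * p), [], q, r, go]) := Go.copy (by simp)
  have h4 : Go G (.clear 7)
      (st [x, K, W, ones m, ones (m * p), [], a, ones (m * p), [], q, r, go])
      (3 * (ones (m * p)).length + 1)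
      (st [x, K, W, ones m, ones (m * p), [], a, [], [], q, r, go]) := Go.clear (by simp)
  refine (h1.seq (h2.seq (h3.seq h4))).mono ?_
  simp only [List.length_replicate, ones]
  ring_nf
  omega

/-- `hs n` is the number of binary digits of `n`. -/
def hs (n : ℕ) : ℕ := if h : n = 0 then 0 else hs (n / 2) + 1
termination_by n
decreasing_by omega

theorem hs_zero : hs 0 = 0 := by rw [hs]; simp

theorem hs_pos {n : ℕ} (h : n ≠ 0) : hs n = hs (n / 2) + 1 := by rw [hs]; simp [h]

theorem lt_two_pow_hs (n : ℕ) : n < 2 ^ hs n := by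
  induction n using Nat.strong_induction_on with
  | _ n ih =>
    by_cases h : n = 0
    · subst h; simp [hs_zero]
    · rw [hs_pos h, pow_succ]
      have := ih (n / 2) (by omega)
      omega

theorem two_pow_hs_le (n : ℕ) : 2 ^ hs n ≤ 2 * n + 1 := by
  induction n using Nat.strong_induction_on with
  | _ n ih =>
    by_cases h : n = 0
    · subst h; simp [hs_zero]
    · rw [hs_pos h, pow_succ]
      by_cases h2 : n / 2 = 0
      · rw [h2, hs_zero]; omega
      · rw [hs_pos h2, pow_succ]
        have h4 : 2 ^ hs (n / 2 / 2) * 2 ≤ 2 * (n / 2) + 1 := by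
          have := ih (n / 2) (by omega)
          rwa [hs_pos h2, pow_succ] at this
        omega

theorem hs_le (n : ℕ) : hs n ≤ n := by
  induction n using Nat.strong_induction_on with
  | _ n ih =>
    by_cases h : n = 0
    · subst h; simp [hs_zero]
    · rw [hs_pos h]
      have := ih (n / 2) (by omega)
      omega

/-- Halve a number. -/
def halfLoop : Prog := .loop 5 (.take 5 .nop (.take 5 .nop (.put 9 true) (.put 9 true))
  (.take 5 .nop (.put 9 true) (.put 9 true)))

theorem go_halfLoop (j i : ℕ) :
    Go G halfLoop (st [x, K, W, N, P, ones j, a, c, d, ones i, r, go])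
      (4 * j + 1) (st [x, K, W, N, P, [], a, c, d, ones (i + j / 2), r, go]) := by
  induction j using Nat.strong_induction_on generalizing i with
  | _ j ih =>
    rcases j with _ | _ | j
    · exact Go.loop_nil rfl
    · have h1 : Go G (.take 5 .nop (.take 5 .nop (.put 9 true) (.put 9 true))
          (.take 5 .nop (.put 9 true) (.put 9 true)))
          (st [x, K, W, N, P, ones 1, a, c, d, ones i, r, go]) 3
          (st [x, K, W, N, P, [], a, c, d, ones i, r, go]) :=
        Go.take_true (T := 2) (by simp) rfl (Go.take_nil (T := 1) rfl Go.nop)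
      exact (Go.loop_cons (T' := 1) (by simp [st, ones]) h1 (Go.loop_nil rfl)).mono (by omega)
    · have h0 : Go G (.put 9 true) (st [x, K, W, N, P, ones j, a, c, d, ones i, r, go]) 1
          (st [x, K, W, N, P, ones j, a, c, d, ones i ++ ones 1, r, go]) := Go.put true (by simp)
      rw [ones_add] at h0
      have h1 : Go G (.take 5 .nop (.take 5 .nop (.put 9 true) (.put 9 true))
          (.take 5 .nop (.put 9 true) (.put 9 true)))
          (st [x, K, W, N, P, ones (j + 1 + 1), a, c, d, ones i, r, go]) 3
          (st [x, K, W, N, P, ones j, a, c, d, ones (i + 1), r, go]) :=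
        Go.take_true (T := 2) (by simp) rfl (Go.take_true (T := 1) (by simp) rfl h0)
      have h2 := ih j (by omega) (i + 1)
      have e1 : i + 1 + j / 2 = i + (j + 1 + 1) / 2 := by omega
      rw [e1] at h2
      exact (Go.loop_cons (by simp [st, ones]) h1 h2).mono (by omega)

/-- Halve a number and count. -/
def halfBody : Prog := .seq halfLoop (.seq (.copy 9 5) (.seq (.clear 9) (.put 7 true)))

theorem go_halfBody (j i : ℕ) :
    Go G halfBody (st [x, K, W, N, P, ones j, a, ones i, d, [], r, go])
      (6 * j + 5) (st [x, K, W, N, P, ones (j / 2), a, ones (i + 1), d, [], r, go]) := by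
  have h1 := go_halfLoop (G := G) (x := x) (K := K) (W := W) (N := N) (P := P) (a := a)
    (c := ones i) (d := d) (r := r) (go := go) j 0
  rw [Nat.zero_add] at h1
  have h2 : Go G (.copy 9 5) (st [x, K, W, N, P, [], a, ones i, d, ones (j / 2), r, go])
      ((ones (j / 2)).length + 1)
      (st [x, K, W, N, P, ones (j / 2), a, ones i, d, ones (j / 2), r, go]) := Go.copy (by simp)
  have h3 : Go G (.clear 9)
      (st [x, K, W, N, P, ones (j / 2), a, ones i, d, ones (j / 2), r, go])
      (3 * (ones (j / 2)).length + 1)
      (st [x, K, W, N, P, ones (j / 2), a, ones i, d, [], r, go]) := Go.clear (by simp)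
  have h4 : Go G (.put 7 true) (st [x, K, W, N, P, ones (j / 2), a, ones i, d, [], r, go]) 1
      (st [x, K, W, N, P, ones (j / 2), a, ones i ++ ones 1, d, [], r, go]) :=
    Go.put true (by simp)
  rw [ones_add] at h4
  refine (h1.seq (h2.seq (h3.seq h4))).mono ?_
  simp only [List.length_replicate, ones]
  omega

theorem go_half (j i : ℕ) :
    Go G (.loop 5 halfBody) (st [x, K, W, N, P, ones j, a, ones i, d, [], r, go])
      (20 * j + 1) (st [x, K, W, N, P, [], a, ones (i + hs j), d, [], r, go]) := by
  induction j using Nat.strong_induction_on generalizing i with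
  | _ j ih =>
    by_cases h : j = 0
    · subst h
      rw [hs_zero]
      exact Go.loop_nil rfl
    · have h1 := go_halfBody (G := G) (x := x) (K := K) (W := W) (N := N) (P := P) (a := a)
        (d := d) (r := r) (go := go) j i
      have h2 := ih (j / 2) (by omega) (i + 1)
      have e1 : i + 1 + hs (j / 2) = i + hs j := by rw [hs_pos h]; omega
      rw [e1] at h2
      obtain ⟨j, rfl⟩ := Nat.exists_eq_succ_of_ne_zero h
      exact (Go.loop_cons (by simp [st, ones]) h1 h2).mono (by omega)

theorem go_times (e i : ℕ) :
    Go G (iter (.app 7 1 8) e) (st [x, [], W, N, P, E, a, ones i, [], q, r, go])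
      (e * (4 * i + 2) + 1) (st [x, ones (e * i), W, N, P, E, a, ones i, [], q, r, go]) := by
  induction e with
  | zero => simp only [Nat.zero_mul, Nat.zero_add]; exact Go.nop
  | succ e ih =>
    have h1 : Go G (.app 7 1 8) (st [x, ones (e * i), W, N, P, E, a, ones i, [], q, r, go])
        (4 * (ones i).length + 2)
        (st [x, ones (e * i) ++ ones i, W, N, P, E, a, ones i, [], q, r, go]) :=
      Go.app (by simp) (by simp) (by simp)
    rw [ones_add] at h1
    have e1 : e * i + i = (e + 1) * i := by ring
    rw [e1] at h1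
    refine (ih.seq h1).mono ?_
    simp only [List.length_replicate, ones]
    ring_nf
    omega

end

/-! ### The string `y` -/

/-- The length of the padding. -/
def padLen (C e : ℕ) (n : ℕ) : ℕ := (n + C) ^ e

/-- The length parameter of the region. -/
def regLen (C e e' : ℕ) (n : ℕ) : ℕ := e' * hs (4 * padLen C e n)

/-- The padded instance. -/
def padded (C e : ℕ) (x : List Bool) : List Bool :=
  ones (padLen C e x.length) ++ false :: x

/-- The string `y`. -/
def yOf (G : Oracle) (C e e' : ℕ) (x : List Bool) : List Bool :=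
  ones (regLen C e e' x.length) ++ false :: (par G (regLen C e e' x.length) (padded C e x) ::
    padded C e x)

/-- Compute unary numbers. -/
def pA (C e : ℕ) : Prog := .seq (.copy 0 5) (.seq (.each 5 (.put 3 true) (.put 3 true))
  (.seq (iter (.put 3 true) C) (.seq (.put 4 true) (iter mulProg e))))

/-- Compute the padded instance. -/
def pB : Prog := .seq (.copy 4 2) (.seq (.put 2 false) (.app 0 2 8))

/-- Compute the length parameter. -/
def pC (e' : ℕ) : Prog := .seq (.app 4 5 8) (.seq (.app 4 5 8) (.seq (.app 4 5 8) (.seq (.app 4 5 8)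
  (.seq (.loop 5 halfBody) (.seq (iter (.app 7 1 8) e') (.seq (.clear 7) (.seq (.clear 3)
    (.clear 4))))))))

/-- Build the string `y`. -/
def pD : Prog := .seq parProg (.seq (.copy 1 9) (.seq (.put 9 false)
  (.seq (.take 6 (.put 9 false) .nop (.put 9 true)) (.seq (.app 2 9 8) (.seq (.clear 1)
    (.seq (.clear 2) (.seq (.copy 9 0) (.clear 9))))))))

theorem comp_pA (G : Oracle) (C e : ℕ) : Comp G (pA C e) init
    (fun x => st [x, [], [], ones (x.length + C), ones (padLen C e x.length), [], [], [], [], [],
      [], []]) := by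
  have hm : Comp G (iter mulProg e)
      (fun x => st [x, [], [], ones (x.length + C), ones 1, [], [], [], [], [], [], []])
      (fun x => st [x, [], [], ones (x.length + C), ones (padLen C e x.length), [], [], [], [],
        [], [], []]) := by
    induction e with
    | zero => exact ⟨_, PB.const 1, fun x => Go.nop⟩
    | succ e ih =>
      refine ih.seq ⟨fun n => 10 * (n + C) * (n + C) ^ e + 10 * (n + C) + 10, ?_, fun x => ?_⟩
      · have h1 : PB fun n => n + C := PB.id.add (PB.const C)
        exact ((((PB.const 10).mul h1).mul (h1.pow e)).add ((PB.const 10).mul h1)).add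
          (PB.const 10)
      · have h2 := go_mul (G := G) (x := x) (K := []) (W := []) (a := []) (q := []) (r := [])
          (go := []) (x.length + C) ((x.length + C) ^ e)
        have e1 : (x.length + C) * (x.length + C) ^ e = padLen C (e + 1) x.length := by
          rw [padLen, pow_succ, mul_comm]
        rwa [e1] at h2
  obtain ⟨F, hF, hm⟩ := hm
  refine ⟨fun n => (n + 1) + ((3 * n + 1) + ((C + 1) + (1 + F n))), ?_, fun x => ?_⟩
  · exact (PB.id.add (PB.const 1)).add ((((PB.const 3).mul PB.id).add (PB.const 1)).add
      ((PB.const _).add ((PB.const 1).add hF)))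
  · rw [init_eq]
    have h1 : Go G (.copy 0 5) (st [x, [], [], [], [], [], [], [], [], [], [], []]) (x.length + 1)
        (st [x, [], [], [], [], x, [], [], [], [], [], []]) := Go.copy (by simp)
    have h2 := go_ones (G := G) (x := x) (K := []) (W := []) (P := []) (a := []) (c := [])
      (d := []) (q := []) (r := []) (go := []) x 0
    rw [Nat.zero_add] at h2
    have h3 := go_puts (G := G) (x := x) (K := []) (W := []) (P := []) (a := []) (c := [])
      (d := []) (q := []) (r := []) (go := []) (E := []) C x.length
    have h4 : Go G (.put 4 true)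
        (st [x, [], [], ones (x.length + C), [], [], [], [], [], [], [], []]) 1
        (st [x, [], [], ones (x.length + C), ones 1, [], [], [], [], [], [], []]) :=
      Go.put true (by simp)
    exact h1.seq (h2.seq (h3.seq (h4.seq (hm x))))

theorem pb_padLen (C e : ℕ) : PB fun n => padLen C e n := (PB.id.add (PB.const C)).pow e

theorem comp_pB (G : Oracle) (C e : ℕ) : Comp G pB
    (fun x => st [x, [], [], ones (x.length + C), ones (padLen C e x.length), [], [], [], [], [],
      [], []])
    (fun x => st [x, [], padded C e x, ones (x.length + C), ones (padLen C e x.length), [], [],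
      [], [], [], [], []]) := by
  refine ⟨fun n => (padLen C e n + 1) + (1 + (4 * n + 2)), ?_, fun x => ?_⟩
  · exact ((pb_padLen C e).add (PB.const 1)).add ((PB.const 1).add
      (((PB.const 4).mul PB.id).add (PB.const 2)))
  · obtain ⟨P, hP⟩ : ∃ P, ones (padLen C e x.length) = P := ⟨_, rfl⟩
    have hPl : P.length = padLen C e x.length := by rw [← hP]; simp
    obtain ⟨N, hN⟩ : ∃ N, ones (x.length + C) = N := ⟨_, rfl⟩
    have hpad : padded C e x = P ++ [false] ++ x := by rw [padded, hP]; simp
    beta_reduce
    rw [hpad, hP, hN, ← hPl]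
    have h1 : Go G (.copy 4 2) (st [x, [], [], N, P, [], [], [], [], [], [], []]) (P.length + 1)
        (st [x, [], P, N, P, [], [], [], [], [], [], []]) := Go.copy (by simp)
    have h2 : Go G (.put 2 false) (st [x, [], P, N, P, [], [], [], [], [], [], []]) 1
        (st [x, [], P ++ [false], N, P, [], [], [], [], [], [], []]) := Go.put false (by simp)
    have h3 : Go G (.app 0 2 8) (st [x, [], P ++ [false], N, P, [], [], [], [], [], [], []])
        (4 * x.length + 2)
        (st [x, [], P ++ [false] ++ x, N, P, [], [], [], [], [], [], []]) :=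
      Go.app (by simp) (by simp) (by simp)
    exact h1.seq (h2.seq h3)

theorem comp_pC (G : Oracle) (C e e' : ℕ) : Comp G (pC e')
    (fun x => st [x, [], padded C e x, ones (x.length + C), ones (padLen C e x.length), [], [],
      [], [], [], [], []])
    (fun x => st [x, ones (regLen C e e' x.length), padded C e x, [], [], [], [],
      [], [], [], [], []]) := by
  refine ⟨fun n => (4 * padLen C e n + 2) + ((4 * padLen C e n + 2) + ((4 * padLen C e n + 2) +
    ((4 * padLen C e n + 2) + ((20 * (4 * padLen C e n) + 1) +
      ((e' * (4 * (4 * padLen C e n) + 2) + 1) + ((3 * (4 * padLen C e n) + 1) +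
        ((3 * (n + C) + 1) + (3 * padLen C e n + 1)))))))), ?_, fun x => ?_⟩
  · have h1 : PB fun n => 4 * padLen C e n + 2 :=
      ((PB.const 4).mul (pb_padLen C e)).add (PB.const 2)
    have h4 : PB fun n => 4 * padLen C e n := (PB.const 4).mul (pb_padLen C e)
    refine h1.add (h1.add (h1.add (h1.add ((((PB.const 20).mul h4).add (PB.const 1)).add
      (PB.add (((PB.const e').mul (((PB.const 4).mul h4).add (PB.const 2))).add (PB.const 1))
      (PB.add (((PB.const 3).mul h4).add (PB.const 1)) (PB.add
      (((PB.const 3).mul (PB.id.add (PB.const C))).add (PB.const 1))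
      (((PB.const 3).mul (pb_padLen C e)).add (PB.const 1)))))))))
  · obtain ⟨m, hm⟩ : ∃ m, padLen C e x.length = m := ⟨_, rfl⟩
    obtain ⟨W, hW⟩ : ∃ W, padded C e x = W := ⟨_, rfl⟩
    obtain ⟨N, hN⟩ : ∃ N, ones (x.length + C) = N := ⟨_, rfl⟩
    have hNl : N.length = x.length + C := by rw [← hN]; simp
    beta_reduce
    rw [regLen, hW, hN, hm, ← hNl]
    have h1 : ∀ j, Go G (.app 4 5 8) (st [x, [], W, N, ones m, ones j, [], [], [], [], [], []])
        (4 * m + 2)
        (st [x, [], W, N, ones m, ones (j + m), [], [], [], [], [], []]) := by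
      intro j
      have : Go G (.app 4 5 8) (st [x, [], W, N, ones m, ones j, [], [], [], [], [], []])
        (4 * (ones m).length + 2)
        (st [x, [], W, N, ones m, ones j ++ ones m, [], [], [], [], [], []]) :=
          Go.app (by simp) (by simp) (by simp)
      rw [ones_add] at this
      simpa [ones] using this
    have h2 := (h1 0)
    have h3 := (h1 (0 + m))
    have h4 := (h1 (0 + m + m))
    have h5 := (h1 (0 + m + m + m))
    have e1 : 0 + m + m + m + m = 4 * m := by omega
    rw [e1] at h5
    have h6 := go_half (G := G) (x := x) (K := []) (W := W) (N := N) (P := ones m) (a := [])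
      (d := []) (r := []) (go := []) (4 * m) 0
    rw [Nat.zero_add] at h6
    have h7 := go_times (G := G) (x := x) (W := W) (N := N) (P := ones m) (a := [])
      (r := []) (go := []) (q := []) (E := []) e' (hs (4 * m))
    have h8 : Go G (.clear 7) (st [x, ones (e' * hs (4 * m)), W, N, ones m, [], [],
        ones (hs (4 * m)), [], [], [], []]) (3 * (ones (hs (4 * m))).length + 1)
        (st [x, ones (e' * hs (4 * m)), W, N, ones m, [], [], [], [], [], [], []]) :=
      Go.clear (by simp)
    have h9 : Go G (.clear 3) (st [x, ones (e' * hs (4 * m)), W, N, ones m, [], [],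
        [], [], [], [], []]) (3 * N.length + 1)
        (st [x, ones (e' * hs (4 * m)), W, [], ones m, [], [], [], [], [], [], []]) :=
      Go.clear (by simp)
    have h10 : Go G (.clear 4) (st [x, ones (e' * hs (4 * m)), W, [], ones m, [], [],
        [], [], [], [], []]) (3 * (ones m).length + 1)
        (st [x, ones (e' * hs (4 * m)), W, [], [], [], [], [], [], [], [], []]) :=
      Go.clear (by simp)
    have h11 := hs_le (4 * m)
    refine (h2.seq (h3.seq (h4.seq (h5.seq (h6.seq (h7.seq (h8.seq (h9.seq h10)))))))).mono ?_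
    have h12 : e' * (4 * hs (4 * m) + 2) ≤ e' * (4 * (4 * m) + 2) :=
      Nat.mul_le_mul_left _ (by omega)
    simp only [List.length_replicate, ones]
    omega

theorem length_padded (C e : ℕ) (x : List Bool) :
    (padded C e x).length = padLen C e x.length + 1 + x.length := by
  simp [padded]; omega

theorem length_yOf (G : Oracle) (C e e' : ℕ) (x : List Bool) :
    (yOf G C e e' x).length = regLen C e e' x.length + padLen C e x.length + x.length + 3 := by
  simp [yOf, length_padded]; omega

theorem pb_regLen (C e e' : ℕ) : PB fun n => regLen C e e' n :=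
  ((PB.const e').mul ((PB.const 4).mul (pb_padLen C e))).mono fun _ =>
    Nat.mul_le_mul_left _ (hs_le _)

theorem pb_two_pow (C e e' : ℕ) : PB fun n => 2 ^ regLen C e e' n := by
  refine ((((PB.const 2).mul ((PB.const 4).mul (pb_padLen C e))).add (PB.const 1)).pow e').mono
    fun n => ?_
  rw [regLen, mul_comm, pow_mul]
  exact Nat.pow_le_pow_left (two_pow_hs_le _) e'

theorem comp_pD (G : Oracle) (C e e' : ℕ) : Comp G pD
    (fun x => st [x, ones (regLen C e e' x.length), padded C e x, [], [], [], [],
      [], [], [], [], []]) (fun x => init (yOf G C e e' x)) := by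
  have hw : PB fun n => padLen C e n + 1 + n := ((pb_padLen C e).add (PB.const 1)).add PB.id
  have hy : PB fun n => regLen C e e' n + padLen C e n + n + 3 :=
    (((pb_regLen C e e').add (pb_padLen C e)).add PB.id).add (PB.const 3)
  have h15 : PB fun n => 2 * regLen C e e' n + 1 + (padLen C e n + 1 + n) :=
    (((PB.const 2).mul (pb_regLen C e e')).add (PB.const 1)).add hw
  refine ⟨fun n => (2 ^ regLen C e e' n *
      (15 * (2 * regLen C e e' n + 1 + (padLen C e n + 1 + n)) + 22) +
      3 * (2 * regLen C e e' n + 1 + (padLen C e n + 1 + n)) + 11 * regLen C e e' n + 20) +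
      ((regLen C e e' n + 1) + (1 + (2 + ((4 * (padLen C e n + 1 + n) + 2) +
        ((3 * regLen C e e' n + 1) + ((3 * (padLen C e n + 1 + n) + 1) +
        (((regLen C e e' n + padLen C e n + n + 3) + 1) +
          (3 * (regLen C e e' n + padLen C e n + n + 3) + 1)))))))), ?_, fun x => ?_⟩
  · exact PB.add (PB.add (PB.add (PB.add ((pb_two_pow C e e').mul (((PB.const 15).mul h15).add
      (PB.const 22))) ((PB.const 3).mul h15)) ((PB.const 11).mul (pb_regLen C e e')))
      (PB.const 20)) (PB.add ((pb_regLen C e e').add (PB.const 1)) (PB.add (PB.const 1)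
      (PB.add (PB.const 2) (PB.add (((PB.const 4).mul hw).add (PB.const 2))
      (PB.add (((PB.const 3).mul (pb_regLen C e e')).add (PB.const 1)) (PB.add
      (((PB.const 3).mul hw).add (PB.const 1)) (PB.add (hy.add (PB.const 1))
      (((PB.const 3).mul hy).add (PB.const 1)))))))))
  · obtain ⟨k, hk⟩ : ∃ k, regLen C e e' x.length = k := ⟨_, rfl⟩
    obtain ⟨W, hW⟩ : ∃ W, padded C e x = W := ⟨_, rfl⟩
    have hWl : W.length = padLen C e x.length + 1 + x.length := by rw [← hW, length_padded]
    have hyl := length_yOf G C e e' x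
    obtain ⟨y, hy⟩ : ∃ y, yOf G C e e' x = y := ⟨_, rfl⟩
    have hy' : y = ones k ++ [false] ++ [par G k W] ++ W := by
      rw [← hy, yOf, hk, hW]; simp
    simp only
    rw [hk, hW, hy, ← hWl]
    rw [hy, hk] at hyl
    rw [← hyl, init_eq]
    have h1 := reach_parProg (G := G) (s := 2 * k + 1 + W.length) (x0 := x) (W := W) k false le_rfl
    rw [Bool.false_xor] at h1
    have h1' : Go G parProg _ _ _ := ⟨_, h1⟩
    have h2 : Go G (.copy 1 9)
        (st [x, ones k, W, [], [], [], cc (par G k W), [], [], [], [], []])
        ((ones k).length + 1)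
        (st [x, ones k, W, [], [], [], cc (par G k W), [], [], ones k, [], []]) :=
      Go.copy (by simp)
    have h3 : Go G (.put 9 false)
        (st [x, ones k, W, [], [], [], cc (par G k W), [], [], ones k, [], []]) 1
        (st [x, ones k, W, [], [], [], cc (par G k W), [], [], ones k ++ [false], [], []]) :=
      Go.put false (by simp)
    have h4 : Go G (.take 6 (.put 9 false) .nop (.put 9 true))
        (st [x, ones k, W, [], [], [], cc (par G k W), [], [], ones k ++ [false], [], []]) 2
        (st [x, ones k, W, [], [], [], [], [], [], ones k ++ [false] ++ [par G k W], [], []]) := by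
      cases par G k W
      · exact Go.take_nil (T := 1) rfl (Go.put false (by simp))
      · exact Go.take_true (T := 1) (by simp) rfl (Go.put true (by simp))
    have h5 : Go G (.app 2 9 8)
        (st [x, ones k, W, [], [], [], [], [], [], ones k ++ [false] ++ [par G k W], [], []])
        (4 * W.length + 2)
        (st [x, ones k, W, [], [], [], [], [], [], ones k ++ [false] ++ [par G k W] ++ W, [],
          []]) := Go.app (by simp) (by simp) (by simp)
    rw [← hy'] at h5
    have h6 : Go G (.clear 1) (st [x, ones k, W, [], [], [], [], [], [], y, [], []])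
        (3 * (ones k).length + 1) (st [x, [], W, [], [], [], [], [], [], y, [], []]) :=
      Go.clear (by simp)
    have h7 : Go G (.clear 2) (st [x, [], W, [], [], [], [], [], [], y, [], []])
        (3 * W.length + 1) (st [x, [], [], [], [], [], [], [], [], y, [], []]) :=
      Go.clear (by simp)
    have h8 : Go G (.copy 9 0) (st [x, [], [], [], [], [], [], [], [], y, [], []])
        (y.length + 1) (st [y, [], [], [], [], [], [], [], [], y, [], []]) :=
      Go.copy (by simp)
    have h9 : Go G (.clear 9) (st [y, [], [], [], [], [], [], [], [], y, [], []])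
        (3 * y.length + 1) (st [y, [], [], [], [], [], [], [], [], [], [], []]) :=
      Go.clear (by simp)
    refine (h1'.seq (h2.seq (h3.seq (h4.seq (h5.seq (h6.seq (h7.seq (h8.seq h9)))))))).mono ?_
    simp only [List.length_replicate, ones]
    omega

/-- The composition of `h` with `y` is computable in polynomial time. -/
theorem fp_comp {G : Oracle} {h : List Bool → List Bool} (C e e' : ℕ) (hh : FP G h) :
    FP G fun x => h (yOf G C e e' x) := by
  obtain ⟨u, ch, hu⟩ := hh
  obtain ⟨F, ⟨c, hc⟩, hF⟩ : ∃ F : ℕ → ℕ, PB F ∧ ∀ x, ∃ τ : Store,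
      Go G (.seq (pA C e) (.seq pB (.seq (pC e') (.seq pD u)))) (init x) (F x.length) τ ∧
      τ 0 = h (yOf G C e e' x) := by
    obtain ⟨F1, hF1, g1⟩ := comp_pA G C e
    obtain ⟨F2, hF2, g2⟩ := comp_pB G C e
    obtain ⟨F3, hF3, g3⟩ := comp_pC G C e e'
    obtain ⟨F4, hF4, g4⟩ := comp_pD G C e e'
    have hy : PB fun n => regLen C e e' n + padLen C e n + n + 3 :=
      (((pb_regLen C e e').add (pb_padLen C e)).add PB.id).add (PB.const 3)
    refine ⟨fun n => F1 n + (F2 n + (F3 n + (F4 n +
      ((regLen C e e' n + padLen C e n + n + 3) ^ ch + ch)))),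
      hF1.add (hF2.add (hF3.add (hF4.add ((hy.pow ch).add (PB.const ch))))), fun x => ?_⟩
    obtain ⟨s, t, τ, hr, ht, hτ⟩ := hu (yOf G C e e' x)
    rw [length_yOf] at ht
    exact ⟨τ, (g1 x).seq ((g2 x).seq ((g3 x).seq ((g4 x).seq ⟨s, t, ht, hr⟩))), hτ⟩
  refine ⟨.seq (pA C e) (.seq pB (.seq (pC e') (.seq pD u))), c, fun x => ?_⟩
  obtain ⟨τ, ⟨s, t, ht, hr⟩, hτ⟩ := hF x
  exact ⟨s, t, τ, hr, ht.trans (hc _), hτ⟩

end Pool.Agent.L0h34.OM
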