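import Pool.Agent.L0h34.OM.Lib

/-! # Binary counters, parities, and the programs for them -/

set_option autoImplicit false

namespace Pool.Agent.L0h34.OM

open Function

/-- The `k` lowest binary digits of `i`. -/
def zs : ℕ → ℕ → List Bool
  | 0, _ => []
  | k + 1, i => decide (i % 2 = 1) :: zs k (i / 2)

theorem length_zs (k i : ℕ) : (zs k i).length = k := by
  induction k generalizing i with
  | zero => rfl
  | succ k ih => simp [zs, ih]

theorem zs_inj {k i j : ℕ} (hi : i < 2 ^ k) (hj : j < 2 ^ k) (h : zs k i = zs k j) : i = j := by
  induction k generalizing i j with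
  | zero => simp at hi hj; omega
  | succ k ih =>
    simp only [zs, List.cons.injEq, decide_eq_decide] at h
    have h1 := ih (i := i / 2) (j := j / 2) (by rw [pow_succ] at hi; omega)
      (by rw [pow_succ] at hj; omega) h.2
    have h2 := h.1
    omega

/-- Increment a binary number (lowest digit first) by the carry. -/
def inc : Bool → List Bool → Bool × List Bool
  | c, [] => (c, [])
  | c, b :: l => ((inc (c && b) l).1, (xor b c) :: (inc (c && b) l).2)

theorem inc_false (l : List Bool) : inc false l = (false, l) := by
  induction l with
  | nil => rfl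
  | cons b l ih => simp [inc, ih]

theorem inc_zs (k i : ℕ) (hi : i < 2 ^ k) :
    inc true (zs k i) = (decide (2 ^ k ≤ i + 1), zs k (i + 1)) := by
  induction k generalizing i with
  | zero => simp [zs, inc]
  | succ k ih =>
    rw [pow_succ] at hi
    rcases Nat.even_or_odd' i with ⟨j, rfl | rfl⟩
    · have e1 : (2 * j) / 2 = j := by omega
      have e2 : (2 * j + 1) / 2 = j := by omega
      have e3 : ¬ (2 ^ (k + 1) ≤ 2 * j + 1) := by rw [pow_succ]; omega
      simp only [zs, inc, e1, e2, Nat.mul_mod_right, Nat.mul_add_mod]
      simp [inc_false, e3]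
    · have e1 : (2 * j + 1) / 2 = j := by omega
      have e2 : (2 * j + 1 + 1) / 2 = j + 1 := by omega
      have e4 : (2 * j + 1 + 1) % 2 = 0 := by omega
      have e3 : (2 ^ (k + 1) ≤ 2 * j + 1 + 1) ↔ 2 ^ k ≤ j + 1 := by rw [pow_succ]; omega
      simp only [zs, inc, e1, e2, Nat.mul_add_mod, e4]
      simp [ih j (by omega), e3]

theorem zs_zero (k : ℕ) : zs k 0 = List.replicate k false := by
  induction k with
  | zero => rfl
  | succ k ih => simp [zs, ih, List.replicate_succ]

/-- The parity of the number of `i < n` with `f i`. -/
def parUpto (f : ℕ → Bool) : ℕ → Bool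
  | 0 => false
  | n + 1 => xor (parUpto f n) (f n)

theorem parUpto_congr {f g : ℕ → Bool} {n : ℕ} (h : ∀ i < n, f i = g i) :
    parUpto f n = parUpto g n := by
  induction n with
  | zero => rfl
  | succ n ih => simp [parUpto, ih fun i hi => h i (by omega), h n (by omega)]

theorem parUpto_flip {f g : ℕ → Bool} {n j : ℕ} (hj : j < n) (h : ∀ i < n, i ≠ j → f i = g i)
    (h' : g j = !f j) : parUpto g n = !parUpto f n := by
  induction n with
  | zero => omega
  | succ n ih =>
    by_cases hn : j = n
    · subst hn
      have := parUpto_congr (f := f) (g := g) (n := j) fun i hi => h i (by omega) (by omega)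
      simp [parUpto, this, h']
    · have := ih (by omega) fun i hi hij => h i (by omega) hij
      simp [parUpto, this, h n (by omega) (by omega)]

/-- The addresses of the region of `k` and `w`. -/
def addr (k : ℕ) (w : List Bool) (i : ℕ) : List Bool :=
  List.replicate k true ++ [false] ++ zs k i ++ w

theorem length_addr (k : ℕ) (w : List Bool) (i : ℕ) :
    (addr k w i).length = 2 * k + 1 + w.length := by
  simp [addr, length_zs]; omega

theorem replicate_append_inj {k k' : ℕ} {l l' : List Bool}
    (h : List.replicate k true ++ false :: l = List.replicate k' true ++ false :: l') :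
    k = k' ∧ l = l' := by
  induction k generalizing k' with
  | zero =>
    cases k' with
    | zero => simpa using h
    | succ k' => simp [List.replicate_succ] at h
  | succ k ih =>
    cases k' with
    | zero => simp [List.replicate_succ] at h
    | succ k' =>
      simp only [List.replicate_succ, List.cons_append, List.cons.injEq, true_and] at h
      obtain ⟨h1, h2⟩ := ih h
      exact ⟨by omega, h2⟩

theorem addr_inj {k k' i i' : ℕ} {w w' : List Bool} (h : addr k w i = addr k' w' i') :
    k = k' ∧ zs k i = zs k' i' ∧ w = w' := by
  simp only [addr, List.append_assoc, List.singleton_append] at h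
  obtain ⟨h1, h2⟩ := replicate_append_inj h
  have h3 := List.append_inj h2 (by rw [length_zs, length_zs, h1])
  exact ⟨h1, h3.1, h3.2⟩

/-- The parity of the oracle on the region of `k` and `w`. -/
def par (G : Oracle) (k : ℕ) (w : List Bool) : Bool := parUpto (fun i => G (addr k w i)) (2 ^ k)

/-- The oracle with the answer to `a` changed. -/
def flip (G : Oracle) (a : List Bool) : Oracle := fun q => if q = a then !G q else G q

theorem par_flip (G : Oracle) {k i : ℕ} (w : List Bool) (hi : i < 2 ^ k) :
    par (flip G (addr k w i)) k w = !par G k w := by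
  refine parUpto_flip hi (fun j hj hji => ?_) ?_
  · have h1 : addr k w j ≠ addr k w i := fun h => hji (zs_inj hj hi (addr_inj h).2.1)
    simp [flip, h1]
  · simp [flip]

theorem par_flip_of_ne (G : Oracle) {k k' i : ℕ} {w w' : List Bool} (h : w ≠ w') :
    par (flip G (addr k w i)) k' w' = par G k' w' := by
  refine parUpto_congr fun j _ => ?_
  have h1 : addr k' w' j ≠ addr k w i := fun h' => h (addr_inj h').2.2.symm
  simp [flip, h1]

/-- Registers with the given contents; the remaining ones are empty. -/
def st (l : List (List Bool)) : Store := fun r => (l[r]?).getD []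

theorem st_update {l : List (List Bool)} {i : ℕ} (hi : i < l.length) (v : List Bool) :
    update (st l) i v = st (l.set i v) := by
  funext r
  by_cases h : r = i
  · subst h; simp [st, hi]
  · rw [update_of_ne h]
    simp [st, Ne.symm h]

namespace Reach

variable {G : Oracle} {s : ℕ} {u v w : Prog} {T T' : ℕ} {r q d : ℕ} {l : List (List Bool)}
  {τ : Store}

theorem put' (b : Bool) (hr : r < l.length) (h : (st l r).length + 1 ≤ s) :
    Reach G s (.put r b) (st l) 1 (st (l.set r (st l r ++ [b]))) := by
  rw [← st_update hr]; exact put b h

theorem copy' (hr : q < l.length) (h : (st l r).length ≤ s) :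
    Reach G s (.copy r q) (st l) ((st l r).length + 1) (st (l.set q (st l r))) := by
  rw [← st_update hr]; exact copy h

theorem ask' (hr : q < l.length) (h : (st l r).length ≤ s) (h1 : 1 ≤ s) :
    Reach G s (.ask r q) (st l) ((st l r).length + 1) (st (l.set q [G (st l r)])) := by
  rw [← st_update hr]; exact ask h h1

theorem take_false' {x : List Bool} (hr : r < l.length) (h0 : st l r = false :: x)
    (h : Reach G s v (st (l.set r x)) T τ) : Reach G s (.take r u v w) (st l) (T + 1) τ := by
  rw [← st_update hr] at h; exact take_false h0 h

theorem take_true' {x : List Bool} (hr : r < l.length) (h0 : st l r = true :: x)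
    (h : Reach G s w (st (l.set r x)) T τ) : Reach G s (.take r u v w) (st l) (T + 1) τ := by
  rw [← st_update hr] at h; exact take_true h0 h

theorem each_false' {x : List Bool} {ρ : Store} (hr : r < l.length) (h0 : st l r = false :: x)
    (h : Reach G s v (st (l.set r x)) T τ) (h' : Reach G s (.each r v w) τ T' ρ) :
    Reach G s (.each r v w) (st l) (T + T' + 2) ρ := by
  rw [← st_update hr] at h; exact each_false h0 h h'

theorem each_true' {x : List Bool} {ρ : Store} (hr : r < l.length) (h0 : st l r = true :: x)
    (h : Reach G s w (st (l.set r x)) T τ) (h' : Reach G s (.each r v w) τ T' ρ) :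
    Reach G s (.each r v w) (st l) (T + T' + 2) ρ := by
  rw [← st_update hr] at h; exact each_true h0 h h'

theorem clear' (hr : r < l.length) :
    Reach G s (.clear r) (st l) (3 * (st l r).length + 1) (st (l.set r [])) := by
  rw [← st_update hr]; exact clear _ _

theorem app' (hq : q < l.length) (hd : d < l.length) (hdq : d ≠ q)
    (hs : (st l q).length + (st l r).length ≤ s) :
    Reach G s (.app r q d) (st l) (4 * (st l r).length + 2)
      (st ((l.set q (st l q ++ st l r)).set d [])) := by
  rw [← st_update (by simpa using hd), ← st_update hq]; exact app _ hdq hs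

/-- A loop with a known number of rounds. -/
theorem loop_iter {r : ℕ} {u : Prog} (S : ℕ → Store) (N B : ℕ)
    (hb : ∀ i < N, S i r ≠ [] ∧ Reach G s u (S i) B (S (i + 1))) (hend : S N r = []) :
    Reach G s (.loop r u) (S 0) (N * (B + 1) + 1) (S N) := by
  induction N generalizing S with
  | zero => exact (loop_nil hend).mono (by omega)
  | succ N ih =>
    have h1 := hb 0 (by omega)
    have h2 := ih (fun i => S (i + 1)) (fun i hi => hb (i + 1) (by omega)) hend
    exact (loop_cons h1.1 h1.2 h2).mono (by ring_nf; omega)

end Reach

end Pool.Agent.L0h34.OM
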