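import Mathlib

/-!
# Programs with an oracle

Programs work on registers (numbered by the natural numbers) which hold strings of bits.
-/

set_option autoImplicit false

namespace Pool.Agent.L0h34.OM

/-- Programs: `put r b` appends the bit `b` to the string in register `r`; `copy r q` copies the string
of register `r` to register `q`; `ask r q` puts the answer of the oracle to the string in register `r`
(one bit) to register `q`; `take r u v w` does `u` if register `r` is empty, otherwise it removes the
first bit of register `r`, and does `v` if this bit is `false`, and `w` if it is `true`;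
`loop r u` repeats `u` until register `r` is empty. -/
inductive Prog : Type
  | nop : Prog
  | put : ℕ → Bool → Prog
  | copy : ℕ → ℕ → Prog
  | ask : ℕ → ℕ → Prog
  | seq : Prog → Prog → Prog
  | take : ℕ → Prog → Prog → Prog → Prog
  | loop : ℕ → Prog → Prog
  deriving Countable

/-- The contents of the registers. -/
abbrev Store : Type := ℕ → List Bool

/-- Oracles: sets of strings of bits. -/
abbrev Oracle : Type := List Bool → Bool

open Function in
/-- `Run G s u σ t τ`: the program `u` with the oracle `G`, started with the contents `σ` of the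
registers, stops after `t` steps with the contents `τ`, and no string written into a register or given
to the oracle is longer than `s`. Copying a string of length `l` and asking the oracle for a string
of length `l` costs `l + 1` steps. -/
inductive Run (G : Oracle) (s : ℕ) : Prog → Store → ℕ → Store → Prop
  | nop (σ : Store) : Run G s .nop σ 1 σ
  | put (r : ℕ) (b : Bool) (σ : Store) : (σ r).length + 1 ≤ s →
      Run G s (.put r b) σ 1 (update σ r (σ r ++ [b]))
  | copy (r q : ℕ) (σ : Store) : (σ r).length ≤ s →
      Run G s (.copy r q) σ ((σ r).length + 1) (update σ q (σ r))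
  | ask (r q : ℕ) (σ : Store) : (σ r).length ≤ s → 1 ≤ s →
      Run G s (.ask r q) σ ((σ r).length + 1) (update σ q [G (σ r)])
  | seq {u v : Prog} {σ τ ρ : Store} {t t' : ℕ} : Run G s u σ t τ → Run G s v τ t' ρ →
      Run G s (.seq u v) σ (t + t') ρ
  | take_nil {r : ℕ} {u v w : Prog} {σ τ : Store} {t : ℕ} : σ r = [] → Run G s u σ t τ →
      Run G s (.take r u v w) σ (t + 1) τ
  | take_false {r : ℕ} {u v w : Prog} {σ τ : Store} {t : ℕ} {l : List Bool} :
      σ r = false :: l → Run G s v (update σ r l) t τ → Run G s (.take r u v w) σ (t + 1) τ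
  | take_true {r : ℕ} {u v w : Prog} {σ τ : Store} {t : ℕ} {l : List Bool} :
      σ r = true :: l → Run G s w (update σ r l) t τ → Run G s (.take r u v w) σ (t + 1) τ
  | loop_nil {r : ℕ} {u : Prog} {σ : Store} : σ r = [] → Run G s (.loop r u) σ 1 σ
  | loop_cons {r : ℕ} {u : Prog} {σ τ ρ : Store} {t t' : ℕ} : σ r ≠ [] → Run G s u σ t τ →
      Run G s (.loop r u) τ t' ρ → Run G s (.loop r u) σ (t + t' + 1) ρ

/-- At the start the input is in register `0`, and the other registers are empty. -/
def init (x : List Bool) : Store := fun r => if r = 0 then x else []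

/-- `f` is computable in polynomial time relative to the oracle `G`; the output is the string in
register `0` at the end. -/
def FP (G : Oracle) (f : List Bool → List Bool) : Prop :=
  ∃ (u : Prog) (c : ℕ), ∀ x : List Bool, ∃ (s t : ℕ) (τ : Store),
    Run G s u (init x) t τ ∧ t ≤ x.length ^ c + c ∧ τ 0 = f x

/-- `L` is decidable in polynomial space relative to the oracle `G` (the strings given to the oracle
have polynomial length, too); the input is accepted if register `0` is not empty at the end. -/
def PSPACE (G : Oracle) (L : Set (List Bool)) : Prop :=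
  ∃ (u : Prog) (c : ℕ), ∀ x : List Bool, ∃ (t : ℕ) (τ : Store),
    Run G (x.length ^ c + c) u (init x) t τ ∧ (x ∈ L ↔ τ 0 ≠ [])

/-- `A` is many-one reducible to `B` in polynomial time relative to `G`. -/
def ManyOne (G : Oracle) (A B : Set (List Bool)) : Prop :=
  ∃ f : List Bool → List Bool, FP G f ∧ ∀ x, x ∈ A ↔ f x ∈ B

/-- `A` is reducible to `B` by a one-one length-increasing function which is computable in polynomial
time relative to `G`. -/
def OneOneLI (G : Oracle) (A B : Set (List Bool)) : Prop :=
  ∃ f : List Bool → List Bool, FP G f ∧ Function.Injective f ∧ (∀ x, x.length < (f x).length) ∧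
    ∀ x, x ∈ A ↔ f x ∈ B

/-- `A` is complete for polynomial space relative to `G` under polynomial-time many-one
reductions. -/
def CompletePSPACE (G : Oracle) (A : Set (List Bool)) : Prop :=
  PSPACE G A ∧ ∀ B, PSPACE G B → ManyOne G B A

/-! ### Elementary properties of runs -/

namespace Run

variable {G : Oracle} {s : ℕ}

theorem det {u : Prog} {σ τ : Store} {t : ℕ} (h : Run G s u σ t τ) :
    ∀ {s' : ℕ} {t' : ℕ} {τ' : Store}, Run G s' u σ t' τ' → t = t' ∧ τ = τ' := by
  induction h with
  | nop σ => intro s' t' τ' h'; cases h'; exact ⟨rfl, rfl⟩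
  | put r b σ _ => intro s' t' τ' h'; cases h'; exact ⟨rfl, rfl⟩
  | copy r q σ _ => intro s' t' τ' h'; cases h'; exact ⟨rfl, rfl⟩
  | ask r q σ _ _ => intro s' t' τ' h'; cases h'; exact ⟨rfl, rfl⟩
  | seq _ _ ih1 ih2 =>
    intro s' t' τ' h'
    cases h' with
    | seq h1 h2 =>
      obtain ⟨e1, e2⟩ := ih1 h1
      subst e1 e2
      obtain ⟨e3, e4⟩ := ih2 h2
      exact ⟨by omega, e4⟩
  | take_nil h0 _ ih =>
    intro s' t' τ' h'
    cases h' with
    | take_nil _ h1 => obtain ⟨e1, e2⟩ := ih h1; exact ⟨by omega, e2⟩
    | take_false h1 _ => rw [h0] at h1; cases h1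
    | take_true h1 _ => rw [h0] at h1; cases h1
  | take_false h0 _ ih =>
    intro s' t' τ' h'
    cases h' with
    | take_nil h1 _ => rw [h0] at h1; cases h1
    | take_false h1 h2 =>
      rw [h0] at h1; cases h1
      obtain ⟨e1, e2⟩ := ih h2; exact ⟨by omega, e2⟩
    | take_true h1 _ => rw [h0] at h1; cases h1
  | take_true h0 _ ih =>
    intro s' t' τ' h'
    cases h' with
    | take_nil h1 _ => rw [h0] at h1; cases h1
    | take_false h1 _ => rw [h0] at h1; cases h1
    | take_true h1 h2 =>
      rw [h0] at h1; cases h1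
      obtain ⟨e1, e2⟩ := ih h2; exact ⟨by omega, e2⟩
  | loop_nil h0 =>
    intro s' t' τ' h'
    cases h' with
    | loop_nil _ => exact ⟨rfl, rfl⟩
    | loop_cons h1 _ _ => exact absurd h0 h1
  | loop_cons h0 _ _ ih1 ih2 =>
    intro s' t' τ' h'
    cases h' with
    | loop_nil h1 => exact absurd h1 h0
    | loop_cons _ h1 h2 =>
      obtain ⟨e1, e2⟩ := ih1 h1
      subst e1 e2
      obtain ⟨e3, e4⟩ := ih2 h2
      exact ⟨by omega, e4⟩

theorem mono {u : Prog} {σ τ : Store} {t : ℕ} (h : Run G s u σ t τ) {s' : ℕ} (hs : s ≤ s') :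
    Run G s' u σ t τ := by
  induction h with
  | nop σ => exact .nop σ
  | put r b σ h => exact .put r b σ (by omega)
  | copy r q σ h => exact .copy r q σ (by omega)
  | ask r q σ h h' => exact .ask r q σ (by omega) (by omega)
  | seq _ _ ih1 ih2 => exact .seq ih1 ih2
  | take_nil h0 _ ih => exact .take_nil h0 ih
  | take_false h0 _ ih => exact .take_false h0 ih
  | take_true h0 _ ih => exact .take_true h0 ih
  | loop_nil h0 => exact .loop_nil h0
  | loop_cons h0 _ _ ih1 ih2 => exact .loop_cons h0 ih1 ih2

theorem one_le {u : Prog} {σ τ : Store} {t : ℕ} (h : Run G s u σ t τ) : 1 ≤ t := by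
  induction h with
  | nop σ => exact le_rfl
  | put r b σ h => exact le_rfl
  | copy r q σ h => omega
  | ask r q σ h h' => omega
  | seq _ _ ih1 ih2 => omega
  | take_nil h0 _ ih => omega
  | take_false h0 _ ih => omega
  | take_true h0 _ ih => omega
  | loop_nil h0 => exact le_rfl
  | loop_cons h0 _ _ ih1 ih2 => omega

/-- Only strings of length at most `s` are given to the oracle. -/
theorem local_length {u : Prog} {σ τ : Store} {t : ℕ} (h : Run G s u σ t τ) {G' : Oracle}
    (hG : ∀ q : List Bool, q.length ≤ s → G' q = G q) : Run G' s u σ t τ := by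
  induction h with
  | nop σ => exact .nop σ
  | put r b σ h => exact .put r b σ h
  | copy r q σ h => exact .copy r q σ h
  | ask r q σ h h' => rw [← hG _ h]; exact .ask r q σ h h'
  | seq _ _ ih1 ih2 => exact .seq ih1 ih2
  | take_nil h0 _ ih => exact .take_nil h0 ih
  | take_false h0 _ ih => exact .take_false h0 ih
  | take_true h0 _ ih => exact .take_true h0 ih
  | loop_nil h0 => exact .loop_nil h0
  | loop_cons h0 _ _ ih1 ih2 => exact .loop_cons h0 ih1 ih2

/-- At most `t` strings are given to the oracle. -/
theorem local_card {u : Prog} {σ τ : Store} {t : ℕ} (h : Run G s u σ t τ) :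
    ∃ Q : Finset (List Bool), Q.card ≤ t ∧ ∀ G' : Oracle, (∀ q ∈ Q, G' q = G q) →
      Run G' s u σ t τ := by
  classical
  induction h with
  | nop σ => exact ⟨∅, by simp, fun G' _ => .nop σ⟩
  | put r b σ h => exact ⟨∅, by simp, fun G' _ => .put r b σ h⟩
  | copy r q σ h => exact ⟨∅, by simp, fun G' _ => .copy r q σ h⟩
  | ask r q σ h h' =>
    refine ⟨{σ r}, by simp, fun G' hG => ?_⟩
    rw [← hG _ (by simp)]; exact .ask r q σ h h'
  | seq _ _ ih1 ih2 =>
    obtain ⟨Q1, c1, h1⟩ := ih1
    obtain ⟨Q2, c2, h2⟩ := ih2
    refine ⟨Q1 ∪ Q2, (Finset.card_union_le _ _).trans (by omega), fun G' hG => ?_⟩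
    exact .seq (h1 G' fun q hq => hG q (Finset.mem_union_left _ hq))
      (h2 G' fun q hq => hG q (Finset.mem_union_right _ hq))
  | take_nil h0 _ ih =>
    obtain ⟨Q1, c1, h1⟩ := ih
    exact ⟨Q1, by omega, fun G' hG => .take_nil h0 (h1 G' hG)⟩
  | take_false h0 _ ih =>
    obtain ⟨Q1, c1, h1⟩ := ih
    exact ⟨Q1, by omega, fun G' hG => .take_false h0 (h1 G' hG)⟩
  | take_true h0 _ ih =>
    obtain ⟨Q1, c1, h1⟩ := ih
    exact ⟨Q1, by omega, fun G' hG => .take_true h0 (h1 G' hG)⟩
  | loop_nil h0 => exact ⟨∅, by simp, fun G' _ => .loop_nil h0⟩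
  | loop_cons h0 _ _ ih1 ih2 =>
    obtain ⟨Q1, c1, h1⟩ := ih1
    obtain ⟨Q2, c2, h2⟩ := ih2
    refine ⟨Q1 ∪ Q2, (Finset.card_union_le _ _).trans (by omega), fun G' hG => ?_⟩
    exact .loop_cons h0 (h1 G' fun q hq => hG q (Finset.mem_union_left _ hq))
      (h2 G' fun q hq => hG q (Finset.mem_union_right _ hq))

/-- The lengths of the strings increase by at most `t` in `t` steps. -/
theorem length_le {u : Prog} {σ τ : Store} {t : ℕ} (h : Run G s u σ t τ) {m : ℕ}
    (hσ : ∀ r, (σ r).length ≤ m) : (∀ r, (τ r).length ≤ m + t) ∧ Run G (m + t) u σ t τ := by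
  induction h generalizing m with
  | nop σ => exact ⟨fun r => (hσ r).trans (by omega), .nop σ⟩
  | put r b σ h =>
    refine ⟨fun q => ?_, .put r b σ (by have := hσ r; omega)⟩
    by_cases hq : q = r
    · subst hq; simp only [Function.update_self, List.length_append, List.length_cons,
        List.length_nil]; have := hσ q; omega
    · rw [Function.update_of_ne hq]; have := hσ q; omega
  | copy r q σ h =>
    refine ⟨fun p => ?_, .copy r q σ (by have := hσ r; omega)⟩
    by_cases hq : p = q
    · subst hq; simp only [Function.update_self]; have := hσ r; omega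
    · rw [Function.update_of_ne hq]; have := hσ p; omega
  | ask r q σ h h' =>
    refine ⟨fun p => ?_, .ask r q σ (by have := hσ r; omega) (by omega)⟩
    by_cases hq : p = q
    · subst hq; simp only [Function.update_self, List.length_cons, List.length_nil]; omega
    · rw [Function.update_of_ne hq]; have := hσ p; omega
  | seq h1 h2 ih1 ih2 =>
    obtain ⟨a1, b1⟩ := ih1 hσ
    obtain ⟨a2, b2⟩ := ih2 a1
    exact ⟨fun r => (a2 r).trans (by omega), .seq (b1.mono (by omega)) (b2.mono (by omega))⟩
  | take_nil h0 _ ih =>
    obtain ⟨a1, b1⟩ := ih hσ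
    exact ⟨fun r => (a1 r).trans (by omega), .take_nil h0 (b1.mono (by omega))⟩
  | @take_false r _ _ _ σ _ _ l h0 _ ih =>
    have h2 : ∀ q, (Function.update σ r l q).length ≤ m := by
      intro q
      by_cases hq : q = r
      · subst hq; have := hσ q; rw [h0] at this; simp only [Function.update_self]
        simp only [List.length_cons] at this; omega
      · rw [Function.update_of_ne hq]; exact hσ q
    obtain ⟨a1, b1⟩ := ih h2
    exact ⟨fun r => (a1 r).trans (by omega), .take_false h0 (b1.mono (by omega))⟩
  | @take_true r _ _ _ σ _ _ l h0 _ ih =>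
    have h2 : ∀ q, (Function.update σ r l q).length ≤ m := by
      intro q
      by_cases hq : q = r
      · subst hq; have := hσ q; rw [h0] at this; simp only [Function.update_self]
        simp only [List.length_cons] at this; omega
      · rw [Function.update_of_ne hq]; exact hσ q
    obtain ⟨a1, b1⟩ := ih h2
    exact ⟨fun r => (a1 r).trans (by omega), .take_true h0 (b1.mono (by omega))⟩
  | loop_nil h0 => exact ⟨fun r => (hσ r).trans (by omega), .loop_nil h0⟩
  | loop_cons h0 h1 h2 ih1 ih2 =>
    obtain ⟨a1, b1⟩ := ih1 hσ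
    obtain ⟨a2, b2⟩ := ih2 a1
    exact ⟨fun r => (a2 r).trans (by omega),
      .loop_cons h0 (b1.mono (by omega)) (b2.mono (by omega))⟩

end Run

end Pool.Agent.L0h34.OM
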