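import Pool.Agent.L0h34.OM.Reduce

/-! # Generic oracles -/

set_option autoImplicit false

namespace Pool.Agent.L0h34.OM

open Function

/-- The set decided by `u` in space `n ^ c + c`. -/
def accSet (G : Oracle) (u : Prog) (c : ℕ) : Set (List Bool) :=
  {x | ∃ (t : ℕ) (τ : Store), Run G (x.length ^ c + c) u (init x) t τ ∧ τ 0 ≠ []}

/-- `u` computes the output `z` from `y` in time `n ^ c + c`. -/
def Out (G : Oracle) (u : Prog) (c : ℕ) (y z : List Bool) : Prop :=
  ∃ (s t : ℕ) (τ : Store), Run G s u (init y) t τ ∧ t ≤ y.length ^ c + c ∧ τ 0 = z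

/-- The two oracles agree on the strings of length at most `N`. -/
def Agree (N : ℕ) (G G' : Oracle) : Prop := ∀ q : List Bool, q.length ≤ N → G' q = G q

theorem Agree.symm {N : ℕ} {G G' : Oracle} (h : Agree N G G') : Agree N G' G :=
  fun q hq => (h q hq).symm

theorem Agree.mono {N N' : ℕ} {G G' : Oracle} (h : Agree N G G') (hN : N' ≤ N) : Agree N' G G' :=
  fun q hq => h q (hq.trans hN)

theorem accSet_local {N : ℕ} {G G' : Oracle} (h : Agree N G G') {u : Prog} {c : ℕ} {x : List Bool}
    (hN : x.length ^ c + c ≤ N) : x ∈ accSet G' u c ↔ x ∈ accSet G u c := by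
  constructor
  · rintro ⟨t, τ, h1, h2⟩
    exact ⟨t, τ, h1.local_length fun q hq => (h q (hq.trans hN)).symm, h2⟩
  · rintro ⟨t, τ, h1, h2⟩
    exact ⟨t, τ, h1.local_length fun q hq => h q (hq.trans hN), h2⟩

theorem init_length (y : List Bool) (r : ℕ) : (init y r).length ≤ y.length := by
  by_cases h : r = 0 <;> simp [init, h]

theorem Out.local {N : ℕ} {G G' : Oracle} (h : Agree N G G') {u : Prog} {c : ℕ}
    {y z : List Bool} (hN : y.length + (y.length ^ c + c) ≤ N) (h1 : Out G u c y z) :
    Out G' u c y z := by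
  obtain ⟨s, t, τ, h2, h3, h4⟩ := h1
  exact ⟨_, t, τ, (h2.length_le (init_length y)).2.local_length
    fun q hq => h q (hq.trans (le_trans (by omega) hN)), h3, h4⟩

theorem Out.unique {G : Oracle} {u : Prog} {c : ℕ} {y z z' : List Bool} (h : Out G u c y z)
    (h' : Out G u c y z') : z = z' := by
  obtain ⟨s, t, τ, h2, h3, h4⟩ := h
  obtain ⟨s', t', τ', h2', h3', h4'⟩ := h'
  have := (h2.det h2').2
  rw [← h4, ← h4', this]

theorem par_local {N k : ℕ} {w : List Bool} {G G' : Oracle} (h : Agree N G G')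
    (hN : 2 * k + 1 + w.length ≤ N) : par G' k w = par G k w :=
  parUpto_congr fun i _ => h _ (by rw [length_addr]; exact hN)

theorem beta_local {N : ℕ} {y : List Bool} {G G' : Oracle} (h : Agree N G G')
    (hN : 2 * y.length + 1 ≤ N) : beta G' y = beta G y := by
  have h1 := unary_le y
  have h2 : (unary y).2.tail.length ≤ (unary y).2.length := by simp
  rw [beta, beta, par_local h (by omega)]

theorem inst_length (y : List Bool) : (inst y).length ≤ y.length := by
  have h1 := unary_le y
  have h2 := unary_le (unary y).2.tail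
  have h3 : (unary y).2.tail.length ≤ (unary y).2.length := by simp
  rw [inst]
  omega

/-- The reduction works for `G`. -/
def Works (p : (Prog × ℕ) × (Prog × ℕ) × Prog × ℕ) : Set Oracle :=
  {G | ∀ y z, Out G p.2.2.1 p.2.2.2 y z →
    (y ∈ mask G (accSet G p.1.1 p.1.2) ↔ z ∈ accSet G p.2.1.1 p.2.1.2)}

/-- The set of the oracles which agree with `G` on the strings of length at most `N` is open. -/
theorem isOpen_agree (N : ℕ) (G : Oracle) : IsOpen {G' : Oracle | Agree N G G'} := by
  have hfin : {q : List Bool | q.length ≤ N}.Finite := List.finite_length_le Bool N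
  have : {G' : Oracle | Agree N G G'} = ⋂ q ∈ {q : List Bool | q.length ≤ N},
      {G' : Oracle | G' q = G q} := by
    ext G'; simp [Agree]
  rw [this]
  refine hfin.isOpen_biInter fun q _ => ?_
  have h2 : {G' : Oracle | G' q = G q} = (fun G' : Oracle => G' q) ⁻¹' {G q} := rfl
  rw [h2]
  exact (isOpen_discrete _).preimage (continuous_apply q)

theorem isClosed_of_local {S : Set Oracle} (N : ℕ)
    (h : ∀ G G' : Oracle, Agree N G G' → G ∈ S → G' ∈ S) : IsClosed S := by
  rw [← isOpen_compl_iff, isOpen_iff_forall_mem_open]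
  intro G hG
  exact ⟨{G' | Agree N G G'}, fun G' hG' hS => hG (h G' G hG'.symm hS), isOpen_agree N G,
    fun q _ => rfl⟩

theorem isClosed_works (p : (Prog × ℕ) × (Prog × ℕ) × Prog × ℕ) : IsClosed (Works p) := by
  obtain ⟨⟨u, c⟩, ⟨v, d⟩, w, e⟩ := p
  have : Works ((u, c), (v, d), w, e) = ⋂ y, ⋂ z, {G : Oracle | Out G w e y z →
      (y ∈ mask G (accSet G u c) ↔ z ∈ accSet G v d)} := by
    ext G; simp [Works]
  rw [this]
  refine isClosed_iInter fun y => isClosed_iInter fun z => isClosed_of_local
    ((y.length + (y.length ^ e + e)) + (2 * y.length + 1) + ((inst y).length ^ c + c) +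
      (z.length ^ d + d)) ?_
  intro G G' hG h1 h2
  have h3 := h1 (Out.local hG.symm (by omega) h2)
  have h4 := accSet_local (u := u) (c := c) (x := inst y) hG (by omega)
  have h5 := accSet_local (u := v) (c := d) (x := z) hG (by omega)
  have h6 := beta_local (y := y) hG (by omega)
  rw [h5, ← h3]
  simp only [mask, Set.mem_ofPred_eq, h4, h6]

/-! ### Numbers -/

theorem sq_le_two_pow {j : ℕ} (hj : 4 ≤ j) : j * j ≤ 2 ^ j := by
  induction j, hj using Nat.le_induction with
  | base => norm_num
  | succ j hj ih => rw [pow_succ]; nlinarith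

theorem exists_hs_le (e : ℕ) : ∃ C, ∀ m ≥ C, e * hs (4 * m) ≤ m := by
  refine ⟨16 * e * e + 1, fun m hm => ?_⟩
  have h1 := two_pow_hs_le (4 * m)
  obtain ⟨j, hj⟩ : ∃ j, hs (4 * m) = j := ⟨_, rfl⟩
  rw [hj] at h1 ⊢
  rcases Nat.lt_or_ge j (16 * e) with h | h
  · nlinarith
  · rcases Nat.eq_zero_or_pos e with he | he
    · subst he; omega
    · have h2 := sq_le_two_pow (j := j) (by omega)
      have h3 : 16 * e * j ≤ j * j := Nat.mul_le_mul_right _ h
      nlinarith

theorem le_padLen {C e c n : ℕ} (hc : c < e) (hC : c < C) : n ^ c + c ≤ padLen C e n := by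
  have h1 : n ^ c ≤ (n + C) ^ c := Nat.pow_le_pow_left (by omega) c
  have h2 : 1 ≤ (n + C) ^ c := Nat.one_le_pow _ _ (by omega)
  have h3 : (n + C) ^ (c + 1) ≤ (n + C) ^ e := Nat.pow_le_pow_right (by omega) (by omega)
  rw [padLen]
  rw [pow_succ] at h3
  obtain ⟨C, rfl⟩ : ∃ C', C = C' + 1 := ⟨C - 1, by omega⟩
  nlinarith

theorem padLen_mono {C e n n' : ℕ} (h : n ≤ n') : padLen C e n ≤ padLen C e n' :=
  Nat.pow_le_pow_left (by omega) e

theorem region_large {m k c d l : ℕ} (hk : k = (c + 1) * hs (4 * m)) (hm : c < m) (hd : d < m)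
    (hm3 : 3 ≤ m) (hl : l ≤ 4 * m) : d + 2 * (l ^ c + c) < 2 ^ k := by
  have h1 : (4 * m) ^ (c + 1) < 2 ^ k := by
    rw [hk, mul_comm (c + 1), pow_mul]
    exact Nat.pow_lt_pow_left (lt_two_pow_hs _) (by omega)
  have h2 : l ^ c ≤ (4 * m) ^ c := Nat.pow_le_pow_left hl c
  have h3 : 1 ≤ (4 * m) ^ c := Nat.one_le_pow _ _ (by omega)
  rw [pow_succ] at h1
  obtain ⟨X, hX⟩ : ∃ X, (4 * m) ^ c = X := ⟨_, rfl⟩
  rw [hX] at h1 h2 h3
  have h4 : 2 * X + 3 * m ≤ X * (4 * m) := by nlinarith
  omega

/-- There is an address which is not in a given small set. -/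
theorem exists_addr {k : ℕ} (w : List Bool) {Q : Finset (List Bool)} (hQ : Q.card < 2 ^ k) :
    ∃ i < 2 ^ k, addr k w i ∉ Q := by
  classical
  have h1 : ((Finset.range (2 ^ k)).image (addr k w)).card = 2 ^ k := by
    rw [Finset.card_image_of_injOn, Finset.card_range]
    intro i hi j hj h
    simp only [Finset.coe_range, Set.mem_Iio] at hi hj
    exact zs_inj hi hj (addr_inj h).2.1
  obtain ⟨a, ha, ha'⟩ := Finset.exists_mem_notMem_of_card_lt_card (s := Q)
    (t := (Finset.range (2 ^ k)).image (addr k w)) (by rw [h1]; exact hQ)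
  simp only [Finset.mem_image, Finset.mem_range] at ha
  obtain ⟨i, hi, rfl⟩ := ha
  exact ⟨i, hi, ha'⟩

theorem unary_yOf (G : Oracle) (C e e' : ℕ) (x : List Bool) :
    unary (yOf G C e e' x) = (regLen C e e' x.length,
      par G (regLen C e e' x.length) (padded C e x) :: padded C e x) := by
  rw [yOf, ones, unary_replicate]

theorem inst_yOf (G : Oracle) (C e e' : ℕ) (x : List Bool) : inst (yOf G C e e' x) = x := by
  rw [inst, unary_yOf]
  simp only [List.tail_cons, padded, ones, unary_replicate]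

theorem beta_yOf (G G' : Oracle) (C e e' : ℕ) (x : List Bool) : beta G' (yOf G C e e' x) =
    xor (par G (regLen C e e' x.length) (padded C e x))
      (par G' (regLen C e e' x.length) (padded C e x)) := by
  rw [beta, unary_yOf]
  rfl

theorem mem_mask_of_false {G : Oracle} {B : Set (List Bool)} {y : List Bool}
    (h : beta G y = false) : y ∈ mask G B ↔ inst y ∈ B := by
  simp [mask, h]

theorem mem_mask_of_true {G : Oracle} {B : Set (List Bool)} {y : List Bool}
    (h : beta G y = true) : y ∈ mask G B ↔ inst y ∉ B := by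
  simp [mask, h]

theorem padded_inj {C e : ℕ} {x x' : List Bool} (h : padded C e x = padded C e x') : x = x' :=
  (replicate_append_inj h).2

theorem accSet_eq {G : Oracle} {A : Set (List Bool)} {u : Prog} {c : ℕ}
    (h : ∀ x : List Bool, ∃ (t : ℕ) (τ : Store),
      Run G (x.length ^ c + c) u (init x) t τ ∧ (x ∈ A ↔ τ 0 ≠ [])) : accSet G u c = A := by
  ext x
  obtain ⟨t, τ, h1, h2⟩ := h x
  constructor
  · rintro ⟨t', τ', h3, h4⟩
    rw [h2, (h1.det h3).2]
    exact h4
  · intro hx
    exact ⟨t, τ, h1, h2.1 hx⟩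

/-- The main argument. -/
theorem oneOne_of_interior {G : Oracle} {A B : Set (List Bool)} {uA uB uh : Prog} {cA cB ch : ℕ}
    (hA : accSet G uA cA = A) (hB : accSet G uB cB = B) {h : List Bool → List Bool}
    (hh : ∀ y, Out G uh ch y (h y)) (hm : ∀ y, y ∈ mask G B ↔ h y ∈ A)
    {D : Finset (List Bool)}
    (hD : ∀ G' : Oracle, (∀ q ∈ D, G' q = G q) → G' ∈ Works ((uB, cB), (uA, cA), uh, ch)) :
    OneOneLI G B A := by
  classical
  obtain ⟨L, hL⟩ : ∃ L, ∀ q ∈ D, q.length ≤ L :=
    ⟨D.sup List.length, fun q hq => Finset.le_sup (f := List.length) hq⟩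
  obtain ⟨C0, hC0⟩ := exists_hs_le (ch + 1)
  -- parameters
  obtain ⟨e, he⟩ : ∃ e, e = cA + cB + 1 := ⟨_, rfl⟩
  obtain ⟨C, hC⟩ : ∃ C, C = C0 + cA + cB + ch + L + D.card + 4 := ⟨_, rfl⟩
  have hmC : ∀ n, n + C ≤ padLen C e n := fun n => by
    rw [padLen]; exact Nat.le_self_pow (by omega) _
  have hk : ∀ n, regLen C e (ch + 1) n ≤ padLen C e n := fun n =>
    hC0 _ (by have := hmC n; omega)
  have hyl : ∀ x : List Bool, (yOf G C e (ch + 1) x).length ≤ 4 * padLen C e x.length := by
    intro x
    rw [length_yOf]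
    have h1 := hk x.length
    have h2 := hmC x.length
    omega
  have hal : ∀ (x : List Bool) (i : ℕ),
      padLen C e x.length < (addr (regLen C e (ch + 1) x.length) (padded C e x) i).length := by
    intro x i
    rw [length_addr, length_padded]
    omega
  -- the address
  have key : ∀ (x : List Bool) (Q : Finset (List Bool)),
      Q.card ≤ 2 * ((4 * padLen C e x.length) ^ ch + ch) →
      ∃ i < 2 ^ regLen C e (ch + 1) x.length,
        addr (regLen C e (ch + 1) x.length) (padded C e x) i ∉ Q ∧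
        addr (regLen C e (ch + 1) x.length) (padded C e x) i ∉ D := by
    intro x Q hQ
    have h2 := hmC x.length
    have h1 := region_large (m := padLen C e x.length) (k := regLen C e (ch + 1) x.length)
      (c := ch) (d := D.card) (l := 4 * padLen C e x.length) rfl (by omega) (by omega)
      (by omega) le_rfl
    obtain ⟨i, hi, hi'⟩ := exists_addr (k := regLen C e (ch + 1) x.length) (padded C e x)
      (Q := D ∪ Q) ((Finset.card_union_le _ _).trans_lt (by omega))
    simp only [Finset.mem_union, not_or] at hi'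
    exact ⟨i, hi, hi'.2, hi'.1⟩
  -- runs under the flipped oracle
  have runs : ∀ x : List Bool, ∃ Q : Finset (List Bool),
      Q.card ≤ (4 * padLen C e x.length) ^ ch + ch ∧ ∀ G' : Oracle, (∀ q ∈ Q, G' q = G q) →
      Out G' uh ch (yOf G C e (ch + 1) x) (h (yOf G C e (ch + 1) x)) := by
    intro x
    obtain ⟨s, t, τ, h1, h2, h3⟩ := hh (yOf G C e (ch + 1) x)
    obtain ⟨Q, hQ, hQ'⟩ := h1.local_card
    have h4 := Nat.pow_le_pow_left (hyl x) ch
    exact ⟨Q, by omega, fun G' hG' => ⟨s, t, τ, hQ' G' hG', h2, h3⟩⟩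
  have hself : ∀ x, (x ∈ B ↔ h (yOf G C e (ch + 1) x) ∈ A) := by
    intro x
    rw [← hm, mem_mask_of_false (by rw [beta_yOf]; simp), inst_yOf]
  refine ⟨fun x => h (yOf G C e (ch + 1) x), fp_comp C e (ch + 1) ⟨uh, ch, hh⟩, ?_, ?_, hself⟩
  · -- injectivity
    have aux : ∀ x x' : List Bool, x ≠ x' → x.length ≤ x'.length →
        h (yOf G C e (ch + 1) x) ≠ h (yOf G C e (ch + 1) x') := by
      intro x x' hne hlen heq
      obtain ⟨Q, hQ, hQ'⟩ := runs x
      obtain ⟨Q2, hQ2, hQ2'⟩ := runs x'
      have hpm := padLen_mono (C := C) (e := e) hlen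
      have h4 := Nat.pow_le_pow_left (Nat.mul_le_mul_left 4 hpm) ch
      obtain ⟨i, hi, hi1, hi2⟩ := key x' (Q ∪ Q2) ((Finset.card_union_le _ _).trans (by omega))
      have hal' := hal x' i
      obtain ⟨a, ha⟩ : ∃ a, addr (regLen C e (ch + 1) x'.length) (padded C e x') i = a :=
        ⟨_, rfl⟩
      rw [ha] at hi1 hi2 hal'
      simp only [Finset.mem_union, not_or] at hi1
      have hfl : ∀ q, q ≠ a → flip G a q = G q := fun q hq => by simp [flip, hq]
      have hE := hD (flip G a) fun q hq => hfl q fun h' => hi2 (h' ▸ hq)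
      have o1 := hQ' (flip G a) fun q hq => hfl q fun h' => hi1.1 (h' ▸ hq)
      have o2 := hQ2' (flip G a) fun q hq => hfl q fun h' => hi1.2 (h' ▸ hq)
      have w1 := hE _ _ o1
      have w2 := hE _ _ o2
      simp only at w1 w2
      rw [heq, ← w2] at w1
      have hag : Agree (padLen C e x'.length) G (flip G a) := fun q hq =>
        hfl q fun h' => by subst h'; omega
      have b1 : beta (flip G a) (yOf G C e (ch + 1) x) = false := by
        rw [beta_yOf, ← ha, par_flip_of_ne G (fun h' => hne (padded_inj h').symm)]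
        simp
      have b2 : beta (flip G a) (yOf G C e (ch + 1) x') = true := by
        rw [beta_yOf, ← ha, par_flip G _ hi]
        simp
      rw [mem_mask_of_false b1, mem_mask_of_true b2, inst_yOf, inst_yOf,
        accSet_local hag ((le_padLen (by omega) (by omega)).trans hpm),
        accSet_local hag (le_padLen (by omega) (by omega)), hB, hself x, hself x', heq] at w1
      tauto
    intro x x' hxx
    by_contra hne
    rcases le_total x.length x'.length with hl | hl
    · exact aux x x' hne hl hxx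
    · exact aux x' x (Ne.symm hne) hl hxx.symm
  · -- length
    intro x
    by_contra hlen
    simp only [not_lt] at hlen
    obtain ⟨Q, hQ, hQ'⟩ := runs x
    obtain ⟨i, hi, hi1, hi2⟩ := key x Q (by omega)
    have hal' := hal x i
    obtain ⟨a, ha⟩ : ∃ a, addr (regLen C e (ch + 1) x.length) (padded C e x) i = a :=
      ⟨_, rfl⟩
    rw [ha] at hi1 hi2 hal'
    have hfl : ∀ q, q ≠ a → flip G a q = G q := fun q hq => by simp [flip, hq]
    have hE := hD (flip G a) fun q hq => hfl q fun h' => hi2 (h' ▸ hq)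
    have o1 := hQ' (flip G a) fun q hq => hfl q fun h' => hi1 (h' ▸ hq)
    have w1 := hE _ _ o1
    simp only at w1
    have hag : Agree (padLen C e x.length) G (flip G a) := fun q hq =>
      hfl q fun h' => by subst h'; omega
    have b2 : beta (flip G a) (yOf G C e (ch + 1) x) = true := by
      rw [beta_yOf, ← ha, par_flip G _ hi]
      simp
    have h6 : (h (yOf G C e (ch + 1) x)).length ^ cA + cA ≤ padLen C e x.length :=
      le_trans (Nat.add_le_add_right (Nat.pow_le_pow_left hlen cA) cA)
        (le_padLen (by omega) (by omega))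
    rw [mem_mask_of_true b2, inst_yOf, accSet_local hag (le_padLen (by omega) (by omega)),
      accSet_local hag h6, hB, hA, hself x] at w1
    tauto

/-- For comeager many oracles, any two sets which are complete for polynomial space are one-one
equivalent. -/
theorem main : ∀ᶠ G in residual Oracle, ∀ A B : Set (List Bool),
    CompletePSPACE G A → PSPACE G B → OneOneLI G B A := by
  have h1 : ∀ p, ∀ᶠ G in residual Oracle, G ∉ frontier (Works p) := by
    intro p
    have hc := isClosed_works p
    refine residual_of_dense_open (s := (frontier (Works p))ᶜ) isClosed_frontier.isOpen_compl ?_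
    rw [← interior_eq_empty_iff_dense_compl, interior_frontier hc]
  have h2 := eventually_countable_forall.2 h1
  filter_upwards [h2] with G hG A B hA hB
  obtain ⟨h, ⟨uh, ch, hh⟩, hm⟩ := hA.2 _ hB.mask
  obtain ⟨uA, cA, hA'⟩ := hA.1
  obtain ⟨uB, cB, hB'⟩ := hB
  have hA2 := accSet_eq hA'
  have hB2 := accSet_eq hB'
  have hG' := hG ((uB, cB), (uA, cA), uh, ch)
  have hmem : G ∈ Works ((uB, cB), (uA, cA), uh, ch) := by
    intro y z hz
    have := hz.unique (hh y)
    subst this
    simp only
    rw [hA2, hB2]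
    exact hm y
  have hint : G ∈ interior (Works ((uB, cB), (uA, cA), uh, ch)) := by
    by_contra hn
    exact hG' ⟨subset_closure hmem, hn⟩
  obtain ⟨I, U, hU, hsub⟩ := isOpen_pi_iff.1 isOpen_interior G hint
  refine oneOne_of_interior hA2 hB2 hh hm (D := I) fun G' hG2 => interior_subset (hsub ?_)
  intro q hq
  rw [hG2 q hq]
  exact (hU q hq).2

end Pool.Agent.L0h34.OM
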