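import Pool.Agent.L0h34.OM.Basic

/-! # Programs with an oracle: a small library -/

set_option autoImplicit false

namespace Pool.Agent.L0h34.OM

open Function

/-- The program stops after at most `T` steps. -/
def Reach (G : Oracle) (s : ℕ) (u : Prog) (σ : Store) (T : ℕ) (τ : Store) : Prop :=
  ∃ t ≤ T, Run G s u σ t τ

namespace Reach

variable {G : Oracle} {s : ℕ} {u v w : Prog} {σ τ ρ : Store} {T T' : ℕ} {r q : ℕ}

theorem mono (h : Reach G s u σ T τ) (hT : T ≤ T') : Reach G s u σ T' τ := by
  obtain ⟨t, ht, h⟩ := h
  exact ⟨t, ht.trans hT, h⟩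

theorem mono_space (h : Reach G s u σ T τ) {s' : ℕ} (hs : s ≤ s') : Reach G s' u σ T τ := by
  obtain ⟨t, ht, h⟩ := h
  exact ⟨t, ht, h.mono hs⟩

theorem seq (h : Reach G s u σ T τ) (h' : Reach G s v τ T' ρ) :
    Reach G s (.seq u v) σ (T + T') ρ := by
  obtain ⟨t, ht, h⟩ := h
  obtain ⟨t', ht', h'⟩ := h'
  exact ⟨t + t', by omega, .seq h h'⟩

theorem nop : Reach G s .nop σ 1 σ := ⟨1, le_rfl, .nop σ⟩

theorem put (b : Bool) (h : (σ r).length + 1 ≤ s) :
    Reach G s (.put r b) σ 1 (update σ r (σ r ++ [b])) := ⟨1, le_rfl, .put r b σ h⟩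

theorem copy (h : (σ r).length ≤ s) :
    Reach G s (.copy r q) σ ((σ r).length + 1) (update σ q (σ r)) := ⟨_, le_rfl, .copy r q σ h⟩

theorem ask (h : (σ r).length ≤ s) (h1 : 1 ≤ s) :
    Reach G s (.ask r q) σ ((σ r).length + 1) (update σ q [G (σ r)]) :=
  ⟨_, le_rfl, .ask r q σ h h1⟩

theorem take_nil (h0 : σ r = []) (h : Reach G s u σ T τ) :
    Reach G s (.take r u v w) σ (T + 1) τ := by
  obtain ⟨t, ht, h⟩ := h
  exact ⟨t + 1, by omega, .take_nil h0 h⟩

theorem take_false {l : List Bool} (h0 : σ r = false :: l) (h : Reach G s v (update σ r l) T τ) :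
    Reach G s (.take r u v w) σ (T + 1) τ := by
  obtain ⟨t, ht, h⟩ := h
  exact ⟨t + 1, by omega, .take_false h0 h⟩

theorem take_true {l : List Bool} (h0 : σ r = true :: l) (h : Reach G s w (update σ r l) T τ) :
    Reach G s (.take r u v w) σ (T + 1) τ := by
  obtain ⟨t, ht, h⟩ := h
  exact ⟨t + 1, by omega, .take_true h0 h⟩

theorem loop_nil (h0 : σ r = []) : Reach G s (.loop r u) σ 1 σ := ⟨1, le_rfl, .loop_nil h0⟩

theorem loop_cons (h0 : σ r ≠ []) (h : Reach G s u σ T τ) (h' : Reach G s (.loop r u) τ T' ρ) :
    Reach G s (.loop r u) σ (T + T' + 1) ρ := by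
  obtain ⟨t, ht, h⟩ := h
  obtain ⟨t', ht', h'⟩ := h'
  exact ⟨t + t' + 1, by omega, .loop_cons h0 h h'⟩

end Reach

/-- For each bit of register `r` (which is removed) do `v` or `w`. -/
def Prog.each (r : ℕ) (v w : Prog) : Prog := .loop r (.take r .nop v w)

/-- Empty register `r`. -/
def Prog.clear (r : ℕ) : Prog := .each r .nop .nop

/-- Append the string in `r` to the string in `q`; `d` is used. -/
def Prog.app (r q d : ℕ) : Prog := .seq (.copy r d) (.each d (.put q false) (.put q true))

namespace Reach

variable {G : Oracle} {s : ℕ} {u v w : Prog} {σ τ ρ : Store} {T T' : ℕ} {r q d : ℕ}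

theorem each_nil (h0 : σ r = []) : Reach G s (.each r v w) σ 1 σ := loop_nil h0

theorem each_false {l : List Bool} (h0 : σ r = false :: l)
    (h : Reach G s v (update σ r l) T τ) (h' : Reach G s (.each r v w) τ T' ρ) :
    Reach G s (.each r v w) σ (T + T' + 2) ρ := by
  have h1 := take_false (u := .nop) (w := w) h0 h
  exact (loop_cons (by rw [h0]; simp) h1 h').mono (by omega)

theorem each_true {l : List Bool} (h0 : σ r = true :: l)
    (h : Reach G s w (update σ r l) T τ) (h' : Reach G s (.each r v w) τ T' ρ) :
    Reach G s (.each r v w) σ (T + T' + 2) ρ := by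
  have h1 := take_true (u := .nop) (v := v) h0 h
  exact (loop_cons (by rw [h0]; simp) h1 h').mono (by omega)

theorem clear (σ : Store) (r : ℕ) :
    Reach G s (.clear r) σ (3 * (σ r).length + 1) (update σ r []) := by
  obtain ⟨l, hl⟩ : ∃ l, σ r = l := ⟨_, rfl⟩
  rw [hl]
  induction l generalizing σ with
  | nil =>
    have h1 : update σ r [] = σ := by rw [← hl, update_eq_self]
    rw [h1]
    exact each_nil hl
  | cons b l ih =>
    have h2 := ih (update σ r l) (update_self _ _ _)
    rw [update_idem] at h2
    cases b
    · exact (each_false hl nop h2).mono (by simp only [List.length_cons]; omega)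
    · exact (each_true hl nop h2).mono (by simp only [List.length_cons]; omega)

theorem each_put (σ : Store) (hdq : d ≠ q) (hs : (σ q).length + (σ d).length ≤ s) :
    Reach G s (.each d (.put q false) (.put q true)) σ (3 * (σ d).length + 1)
      (update (update σ q (σ q ++ σ d)) d []) := by
  obtain ⟨l, hl⟩ : ∃ l, σ d = l := ⟨_, rfl⟩
  rw [hl] at hs ⊢
  induction l generalizing σ with
  | nil =>
    have h1 : update (update σ q (σ q ++ [])) d [] = σ := by
      rw [List.append_nil, update_eq_self, ← hl, update_eq_self]
    rw [h1]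
    exact each_nil hl
  | cons b l ih =>
    simp only [List.length_cons] at hs
    have e1 : (update σ d l) q = σ q := update_of_ne hdq.symm _ _
    have h1 : Reach G s (.put q b) (update σ d l) 1
        (update (update σ d l) q (σ q ++ [b])) := by
      have := put (G := G) (s := s) (r := q) (σ := update σ d l) b (by rw [e1]; omega)
      rwa [e1] at this
    have e2 : update (update σ d l) q (σ q ++ [b]) d = l := by
      rw [update_of_ne hdq, update_self]
    have h2 := ih (update (update σ d l) q (σ q ++ [b])) (by
      rw [update_self]; simp only [List.length_append, List.length_cons, List.length_nil]; omega) e2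
    have e3 : update (update (update (update σ d l) q (σ q ++ [b])) q
        ((update (update σ d l) q (σ q ++ [b])) q ++ l)) d [] =
        update (update σ q (σ q ++ (b :: l))) d [] := by
      rw [update_self, update_idem]
      funext p
      by_cases hp : p = d
      · subst hp; simp
      · by_cases hp2 : p = q
        · subst hp2; simp [update_of_ne hp]
        · simp [update_of_ne hp, update_of_ne hp2]
    rw [e3] at h2
    cases b
    · exact (each_false hl h1 h2).mono (by simp only [List.length_cons]; omega)
    · exact (each_true hl h1 h2).mono (by simp only [List.length_cons]; omega)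

theorem app (σ : Store) (hdq : d ≠ q) (hs : (σ q).length + (σ r).length ≤ s) :
    Reach G s (.app r q d) σ (4 * (σ r).length + 2)
      (update (update σ q (σ q ++ σ r)) d []) := by
  have h1 : Reach G s (.copy r d) σ ((σ r).length + 1) (update σ d (σ r)) :=
    copy (by omega)
  have e1 : update σ d (σ r) q = σ q := update_of_ne hdq.symm _ _
  have h2 := each_put (G := G) (s := s) (update σ d (σ r)) hdq (by
    rw [e1, update_self]; exact hs)
  rw [e1, update_self, update_comm hdq, update_idem] at h2
  exact (h1.seq h2).mono (by omega)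

end Reach

end Pool.Agent.L0h34.OM
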