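import Pool.Agent.L0h34.OM.Count

/-! # The program for parities of regions -/

set_option autoImplicit false

namespace Pool.Agent.L0h34.OM

open Function

/-- The contents of the carry register. -/
def cc (c : Bool) : List Bool := if c then [true] else []

/-- One digit of the increment, for the digit `false`. -/
def incV : Prog := .take 7 (.put 5 false) (.put 5 true) (.put 5 true)

/-- One digit of the increment, for the digit `true`. -/
def incW : Prog := .take 7 (.put 5 true) (.seq (.put 7 true) (.put 5 false))
  (.seq (.put 7 true) (.put 5 false))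

section

variable {G : Oracle} {s : ℕ} {x0 K W H z y a d q r go : List Bool}

theorem reach_inc (hs1 : 1 ≤ s) (l y : List Bool) (c : Bool) (hs : y.length + l.length ≤ s) :
    Reach G s (.each 4 incV incW) (st [x0, K, W, H, l, y, a, cc c, d, q, r, go])
      (5 * l.length + 1)
      (st [x0, K, W, H, [], y ++ (inc c l).2, a, cc (inc c l).1, d, q, r, go]) := by
  induction l generalizing y c with
  | nil =>
    simp only [inc, List.append_nil]
    exact Reach.each_nil rfl
  | cons b l ih =>
    simp only [List.length_cons] at hs
    have h2 := ih (y ++ [xor b c]) (c && b) (by simp; omega)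
    simp only [List.append_assoc, List.singleton_append] at h2
    rcases b with - | - <;> rcases c with - | -
    · refine (Reach.each_false' (T := 2) (by simp) rfl ?_ h2).mono (by simp only [List.length_cons]; omega)
      exact Reach.take_nil rfl (Reach.put' false (by simp) (by simp [st]; omega))
    · refine (Reach.each_false' (T := 2) (by simp) rfl ?_ h2).mono (by simp only [List.length_cons]; omega)
      exact Reach.take_true' (by simp) rfl (Reach.put' true (by simp) (by simp [st]; omega))
    · refine (Reach.each_true' (T := 3) (by simp) rfl ?_ h2).mono (by simp only [List.length_cons]; omega)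
      exact (Reach.take_nil rfl (Reach.put' true (by simp) (by simp [st]; omega))).mono (by omega)
    · refine (Reach.each_true' (T := 3) (by simp) rfl ?_ h2).mono (by simp only [List.length_cons]; omega)
      refine Reach.take_true' (T := 2) (by simp) rfl ?_
      exact Reach.seq (Reach.put' true (by simp) (by simp [st]; omega))
        (Reach.put' false (by simp) (by simp [st]; omega))

end

/-- Build the address and ask the oracle. -/
def parAsk : Prog := .seq (.copy 3 9) (.seq (.app 4 9 8) (.seq (.app 2 9 8) (.ask 9 10)))

/-- Add the answer to the parity in register `6`. -/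
def parXor : Prog := .take 10 .nop .nop (.take 6 (.put 6 true) .nop .nop)

/-- Increment the counter; on overflow stop. -/
def parInc : Prog := .seq (.put 7 true) (.seq (.each 4 incV incW) (.seq (.copy 5 4)
  (.seq (.clear 5) (.take 7 .nop (.clear 11) (.clear 11)))))

/-- One round. -/
def parBody : Prog := .seq parAsk (.seq parXor parInc)

section

variable {G : Oracle} {s : ℕ} {x0 K W H z y a d q r go : List Bool}

theorem reach_ask (hs : H.length + z.length + W.length ≤ s) (hs1 : 1 ≤ s) :
    Reach G s parAsk (st [x0, K, W, H, z, [], a, [], [], q, r, go])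
      (6 * (H.length + z.length + W.length) + 8)
      (st [x0, K, W, H, z, [], a, [], [], H ++ z ++ W, [G (H ++ z ++ W)], go]) := by
  have h1 : Reach G s (.copy 3 9) (st [x0, K, W, H, z, [], a, [], [], q, r, go]) (H.length + 1)
      (st [x0, K, W, H, z, [], a, [], [], H, r, go]) :=
    Reach.copy' (by simp) (by simp [st]; omega)
  have h2 : Reach G s (.app 4 9 8) (st [x0, K, W, H, z, [], a, [], [], H, r, go])
      (4 * z.length + 2)
      (st [x0, K, W, H, z, [], a, [], [], H ++ z, r, go]) :=
    Reach.app' (by simp) (by simp) (by simp) (by simp [st]; omega)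
  have h3 : Reach G s (.app 2 9 8) (st [x0, K, W, H, z, [], a, [], [], H ++ z, r, go])
      (4 * W.length + 2)
      (st [x0, K, W, H, z, [], a, [], [], H ++ z ++ W, r, go]) :=
    Reach.app' (by simp) (by simp) (by simp) (by simp [st]; omega)
  have h4 : Reach G s (.ask 9 10) (st [x0, K, W, H, z, [], a, [], [], H ++ z ++ W, r, go])
      ((H ++ z ++ W).length + 1)
      (st [x0, K, W, H, z, [], a, [], [], H ++ z ++ W, [G (H ++ z ++ W)], go]) :=
    Reach.ask' (by simp) (by simp [st]; omega) hs1
  refine (h1.seq (h2.seq (h3.seq h4))).mono ?_
  simp only [List.length_append]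
  omega

theorem reach_xor (hs1 : 1 ≤ s) (c b : Bool) :
    Reach G s parXor (st [x0, K, W, H, z, y, cc c, a, d, q, [b], go]) 3
      (st [x0, K, W, H, z, y, cc (xor c b), a, d, q, [], go]) := by
  rcases b with - | - <;> rcases c with - | -
  · exact (Reach.take_false' (by simp) rfl Reach.nop).mono (by omega)
  · exact (Reach.take_false' (by simp) rfl Reach.nop).mono (by omega)
  · refine (Reach.take_true' (T := 2) (by simp) rfl ?_).mono (by omega)
    exact Reach.take_nil rfl (Reach.put' true (by simp) (by simpa [st, cc] using hs1))
  · refine (Reach.take_true' (T := 2) (by simp) rfl ?_).mono (by omega)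
    exact Reach.take_true' (by simp) rfl Reach.nop

theorem reach_parInc (hs1 : 1 ≤ s) (hs : z.length ≤ s) :
    Reach G s parInc (st [x0, K, W, H, z, [], a, [], [], q, r, [true]])
      (9 * z.length + 10)
      (st [x0, K, W, H, (inc true z).2, [], a, [], [], q, r,
        if (inc true z).1 then [] else [true]]) := by
  have hl : ∀ (l : List Bool) (c : Bool), (inc c l).2.length = l.length := by
    intro l
    induction l with
    | nil => intro c; rfl
    | cons b l ih => intro c; simp [inc, ih]
  have h1 : Reach G s (.put 7 true) (st [x0, K, W, H, z, [], a, [], [], q, r, [true]]) 1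
      (st [x0, K, W, H, z, [], a, cc true, [], q, r, [true]]) :=
    Reach.put' true (by simp) (by simpa [st] using hs1)
  have h2 := reach_inc (G := G) (x0 := x0) (K := K) (W := W) (H := H) (a := a) (d := []) (q := q)
    (r := r) (go := [true]) hs1 z [] true (by simpa using hs)
  simp only [List.nil_append] at h2
  have h3 : Reach G s (.copy 5 4)
      (st [x0, K, W, H, [], (inc true z).2, a, cc (inc true z).1, [], q, r, [true]])
      ((inc true z).2.length + 1)
      (st [x0, K, W, H, (inc true z).2, (inc true z).2, a, cc (inc true z).1, [], q, r, [true]]) :=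
    Reach.copy' (by simp) (by simpa [st, hl] using hs)
  have h4 : Reach G s (.clear 5)
      (st [x0, K, W, H, (inc true z).2, (inc true z).2, a, cc (inc true z).1, [], q, r, [true]])
      (3 * (inc true z).2.length + 1)
      (st [x0, K, W, H, (inc true z).2, [], a, cc (inc true z).1, [], q, r, [true]]) :=
    Reach.clear' (by simp)
  have h5 : Reach G s (.take 7 .nop (.clear 11) (.clear 11))
      (st [x0, K, W, H, (inc true z).2, [], a, cc (inc true z).1, [], q, r, [true]])
      5
      (st [x0, K, W, H, (inc true z).2, [], a, [], [], q, r,
        if (inc true z).1 then [] else [true]]) := by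
    cases (inc true z).1
    · exact (Reach.take_nil rfl Reach.nop).mono (by omega)
    · exact Reach.take_true' (T := 4) (by simp) rfl (Reach.clear' (by simp))
  refine (h1.seq (h2.seq (h3.seq (h4.seq h5)))).mono ?_
  rw [hl]
  omega

theorem reach_parBody (hs : H.length + z.length + W.length ≤ s) (hs1 : 1 ≤ s) (c : Bool) :
    Reach G s parBody (st [x0, K, W, H, z, [], cc c, [], [], q, [], [true]])
      (15 * (H.length + z.length + W.length) + 21)
      (st [x0, K, W, H, (inc true z).2, [], cc (xor c (G (H ++ z ++ W))), [], [], H ++ z ++ W, [],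
        if (inc true z).1 then [] else [true]]) := by
  have h1 := reach_ask (G := G) (x0 := x0) (K := K) (W := W) (H := H) (z := z) (a := cc c)
    (q := q) (r := []) (go := [true]) hs hs1
  have h2 := reach_xor (G := G) (x0 := x0) (K := K) (W := W) (H := H) (z := z) (y := []) (a := [])
    (d := []) (q := H ++ z ++ W) (go := [true]) hs1 c (G (H ++ z ++ W))
  have h3 := reach_parInc (G := G) (x0 := x0) (K := K) (W := W) (H := H) (z := z)
    (a := cc (xor c (G (H ++ z ++ W)))) (q := H ++ z ++ W) (r := []) hs1 (by omega)
  exact (h1.seq (h2.seq h3)).mono (by omega)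

end

/-- The program for parities: register `1` holds a string of length `k`, register `2` holds `w`,
and `1` gets the parity of the region to register `6`. -/
def parProg : Prog :=
  .seq (.copy 1 3) (.seq (.put 3 false) (.seq (.copy 1 5) (.seq (.each 5 (.put 4 false) (.put 4 false))
    (.seq (.put 11 true) (.seq (.loop 11 parBody) (.seq (.clear 9) (.seq (.clear 3) (.clear 4))))))))

section

variable {G : Oracle} {s : ℕ} {x0 K W H z y a d q r go : List Bool}

theorem reach_zeros (l : List Bool) (hs : z.length + l.length ≤ s) :
    Reach G s (.each 5 (.put 4 false) (.put 4 false)) (st [x0, K, W, H, z, l, a, y, d, q, r, go])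
      (3 * l.length + 1)
      (st [x0, K, W, H, z ++ List.replicate l.length false, [], a, y, d, q, r, go]) := by
  induction l generalizing z with
  | nil =>
    simp only [List.length_nil, List.replicate_zero, List.append_nil]
    exact Reach.each_nil rfl
  | cons b l ih =>
    simp only [List.length_cons] at hs
    have h2 := ih (z := z ++ [false]) (by simp; omega)
    rw [List.append_assoc] at h2
    cases b
    · exact (Reach.each_false' (T := 1) (by simp) rfl
        (Reach.put' false (by simp) (by simp [st]; omega)) h2).mono
        (by simp only [List.length_cons]; omega)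
    · exact (Reach.each_true' (T := 1) (by simp) rfl
        (Reach.put' false (by simp) (by simp [st]; omega)) h2).mono
        (by simp only [List.length_cons]; omega)

theorem reach_parProg (k : ℕ) (c : Bool) (hs : 2 * k + 1 + W.length ≤ s) :
    Reach G s parProg (st [x0, List.replicate k true, W, [], [], [], cc c, [], [], [], [], []])
      (2 ^ k * (15 * (2 * k + 1 + W.length) + 22) + 3 * (2 * k + 1 + W.length) + 11 * k + 20)
      (st [x0, List.replicate k true, W, [], [], [], cc (xor c (par G k W)), [], [], [], [], []]) := by
  obtain ⟨K, hK⟩ : ∃ K, List.replicate k true = K := ⟨_, rfl⟩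
  have hKl : K.length = k := by rw [← hK]; simp
  have hlen : ∀ i, (addr k W i).length = 2 * k + 1 + W.length := length_addr k W
  obtain ⟨H, hH⟩ : ∃ H, K ++ [false] = H := ⟨_, rfl⟩
  have hHl : H.length = k + 1 := by rw [← hH]; simp [hKl]
  have haddr : ∀ i, H ++ zs k i ++ W = addr k W i := by
    intro i; rw [← hH, ← hK]; rfl
  rw [hK]
  have h1 : Reach G s (.copy 1 3) (st [x0, K, W, [], [], [], cc c, [], [], [], [], []])
      (K.length + 1) (st [x0, K, W, K, [], [], cc c, [], [], [], [], []]) :=
    Reach.copy' (by simp) (by simp [st]; omega)
  have h2 : Reach G s (.put 3 false) (st [x0, K, W, K, [], [], cc c, [], [], [], [], []])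
      1 (st [x0, K, W, K ++ [false], [], [], cc c, [], [], [], [], []]) :=
    Reach.put' false (by simp) (by simp [st]; omega)
  rw [hH] at h2
  have h3 : Reach G s (.copy 1 5) (st [x0, K, W, H, [], [], cc c, [], [], [], [], []])
      (K.length + 1) (st [x0, K, W, H, [], K, cc c, [], [], [], [], []]) :=
    Reach.copy' (by simp) (by simp [st]; omega)
  have h4 := reach_zeros (G := G) (s := s) (x0 := x0) (K := K) (W := W) (H := H) (z := []) (y := [])
    (a := cc c) (d := []) (q := []) (r := []) (go := []) K (by simp; omega)
  rw [List.nil_append, hKl, ← zs_zero] at h4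
  have h5 : Reach G s (.put 11 true) (st [x0, K, W, H, zs k 0, [], cc c, [], [], [], [], []])
      1 (st [x0, K, W, H, zs k 0, [], cc c, [], [], [], [], [true]]) :=
    Reach.put' true (by simp) (by simp [st]; omega)
  have h6 := Reach.loop_iter (G := G) (s := s) (r := 11) (u := parBody)
    (fun i => st [x0, K, W, H, zs k i, [],
      cc (xor c (parUpto (fun i => G (addr k W i)) i)), [], [],
      if i = 0 then [] else addr k W (i - 1), [], if 2 ^ k ≤ i then [] else [true]])
    (2 ^ k) (15 * (2 * k + 1 + W.length) + 21) (by
      intro i hi
      have hni : ¬ (2 ^ k ≤ i) := by omega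
      refine ⟨?_, ?_⟩
      · simp [st, hni]
      · have hb := reach_parBody (G := G) (s := s) (x0 := x0) (K := K) (W := W) (H := H)
          (z := zs k i) (q := if i = 0 then [] else addr k W (i - 1))
          (by rw [length_zs]; omega) (by omega) (xor c (parUpto (fun i => G (addr k W i)) i))
        rw [haddr, inc_zs k i hi, length_zs, hHl] at hb
        simp only [decide_eq_true_eq] at hb
        have e1 : ¬ (i + 1 = 0) := by omega
        simp only [hni, if_false, e1, Nat.add_sub_cancel, parUpto]
        rw [← Bool.xor_assoc]
        exact hb.mono (by ring_nf; omega)) (by simp [st])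
  have hpos : ¬ (2 ^ k ≤ 0) := by have := Nat.pos_of_ne_zero (pow_ne_zero k (two_ne_zero)); omega
  have hpos' : ¬ (2 ^ k = 0) := by omega
  simp only [if_true, hpos, if_false, le_refl, hpos', parUpto, Bool.xor_false] at h6
  have h7 : Reach G s (.clear 9) (st [x0, K, W, H, zs k (2 ^ k), [],
      cc (xor c (parUpto (fun i => G (addr k W i)) (2 ^ k))), [], [], addr k W (2 ^ k - 1), [], []])
      (3 * (addr k W (2 ^ k - 1)).length + 1)
      (st [x0, K, W, H, zs k (2 ^ k), [],
      cc (xor c (parUpto (fun i => G (addr k W i)) (2 ^ k))), [], [], [], [], []]) :=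
    Reach.clear' (by simp)
  have h8 : Reach G s (.clear 3) (st [x0, K, W, H, zs k (2 ^ k), [],
      cc (xor c (parUpto (fun i => G (addr k W i)) (2 ^ k))), [], [], [], [], []])
      (3 * H.length + 1)
      (st [x0, K, W, [], zs k (2 ^ k), [],
      cc (xor c (parUpto (fun i => G (addr k W i)) (2 ^ k))), [], [], [], [], []]) :=
    Reach.clear' (by simp)
  have h9 : Reach G s (.clear 4) (st [x0, K, W, [], zs k (2 ^ k), [],
      cc (xor c (parUpto (fun i => G (addr k W i)) (2 ^ k))), [], [], [], [], []])
      (3 * (zs k (2 ^ k)).length + 1)
      (st [x0, K, W, [], [], [],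
      cc (xor c (parUpto (fun i => G (addr k W i)) (2 ^ k))), [], [], [], [], []]) :=
    Reach.clear' (by simp)
  refine (h1.seq (h2.seq (h3.seq (h4.seq (h5.seq (h6.seq (h7.seq (h8.seq h9)))))))).mono ?_
  rw [hlen, hKl, length_zs, hHl]
  ring_nf
  omega

end

end Pool.Agent.L0h34.OM
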