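import Pool.Agent.L0h34.OM.Parity

/-! # A set in polynomial space -/

set_option autoImplicit false

namespace Pool.Agent.L0h34.OM

open Function

/-! ### Polynomial bounds -/

/-- `f` is bounded by a polynomial. -/
def PB (f : ℕ → ℕ) : Prop := ∃ c : ℕ, ∀ n, f n ≤ n ^ c + c

theorem PB.of_le {f : ℕ → ℕ} {K e : ℕ} (h : ∀ n, f n ≤ K * (n + 1) ^ e) : PB f := by
  refine ⟨K * 2 ^ e + e, fun n => (h n).trans ?_⟩
  have h2 : 1 ≤ 2 ^ e := Nat.one_le_two_pow
  rcases Nat.lt_or_ge n 1 with hn | hn
  · have : n = 0 := by omega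
    subst this
    simp only [Nat.zero_add, one_pow, mul_one]
    have h6 : K ≤ K * 2 ^ e := Nat.le_mul_of_pos_right K (by omega)
    exact (h6.trans (Nat.le_add_right _ e)).trans (Nat.le_add_left _ _)
  · have h3 : (n + 1) ^ e ≤ (2 * n) ^ e := Nat.pow_le_pow_left (by omega) e
    have h4 : K * (n + 1) ^ e ≤ (K * 2 ^ e) * n ^ e := by
      rw [mul_pow] at h3
      calc K * (n + 1) ^ e ≤ K * (2 ^ e * n ^ e) := Nat.mul_le_mul_left _ h3
        _ = _ := by ring
    rcases Nat.lt_or_ge n 2 with hn2 | hn2
    · have : n = 1 := by omega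
      subst this
      simp only [one_pow, mul_one] at h4 ⊢
      omega
    · have h5 : K * 2 ^ e ≤ n ^ (K * 2 ^ e) :=
        (Nat.lt_two_pow_self (n := K * 2 ^ e)).le.trans (Nat.pow_le_pow_left hn2 _)
      calc K * (n + 1) ^ e ≤ (K * 2 ^ e) * n ^ e := h4
        _ ≤ n ^ (K * 2 ^ e) * n ^ e := Nat.mul_le_mul_right _ h5
        _ = n ^ (K * 2 ^ e + e) := by rw [pow_add]
        _ ≤ _ := by omega

theorem PB.le {f : ℕ → ℕ} (h : PB f) : ∃ K e : ℕ, ∀ n, f n ≤ K * (n + 1) ^ e := by
  obtain ⟨c, hc⟩ := h
  refine ⟨c + 1, c, fun n => (hc n).trans ?_⟩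
  have h1 : n ^ c ≤ (n + 1) ^ c := Nat.pow_le_pow_left (by omega) c
  have h2 : 1 ≤ (n + 1) ^ c := Nat.one_le_pow _ _ (by omega)
  nlinarith

theorem PB.mono {f g : ℕ → ℕ} (h : PB g) (hfg : ∀ n, f n ≤ g n) : PB f := by
  obtain ⟨c, hc⟩ := h
  exact ⟨c, fun n => (hfg n).trans (hc n)⟩

theorem PB.const (a : ℕ) : PB fun _ => a := .of_le (K := a) (e := 0) fun n => by simp

theorem PB.id : PB fun n => n := .of_le (K := 1) (e := 1) fun n => by simp

theorem PB.add {f g : ℕ → ℕ} (hf : PB f) (hg : PB g) : PB fun n => f n + g n := by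
  obtain ⟨K, e, h⟩ := hf.le
  obtain ⟨K', e', h'⟩ := hg.le
  refine .of_le (K := K + K') (e := e + e') fun n => ?_
  have h1 : (n + 1) ^ e ≤ (n + 1) ^ (e + e') := Nat.pow_le_pow_right (by omega) (by omega)
  have h2 : (n + 1) ^ e' ≤ (n + 1) ^ (e + e') := Nat.pow_le_pow_right (by omega) (by omega)
  calc f n + g n ≤ K * (n + 1) ^ e + K' * (n + 1) ^ e' := Nat.add_le_add (h n) (h' n)
    _ ≤ K * (n + 1) ^ (e + e') + K' * (n + 1) ^ (e + e') :=
      Nat.add_le_add (Nat.mul_le_mul_left _ h1) (Nat.mul_le_mul_left _ h2)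
    _ = _ := by ring

theorem PB.mul {f g : ℕ → ℕ} (hf : PB f) (hg : PB g) : PB fun n => f n * g n := by
  obtain ⟨K, e, h⟩ := hf.le
  obtain ⟨K', e', h'⟩ := hg.le
  refine .of_le (K := K * K') (e := e + e') fun n => ?_
  calc f n * g n ≤ (K * (n + 1) ^ e) * (K' * (n + 1) ^ e') := Nat.mul_le_mul (h n) (h' n)
    _ = _ := by rw [pow_add]; ring

theorem PB.pow {f : ℕ → ℕ} (hf : PB f) (j : ℕ) : PB fun n => f n ^ j := by
  induction j with
  | zero => simpa using PB.const 1
  | succ j ih => simpa [pow_succ] using ih.mul hf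

/-! ### The set -/

/-- Remove the leading ones and the following zero. -/
def unary : List Bool → ℕ × List Bool
  | [] => (0, [])
  | false :: l => (0, l)
  | true :: l => ((unary l).1 + 1, (unary l).2)

theorem unary_le (l : List Bool) : (unary l).1 + (unary l).2.length ≤ l.length := by
  induction l with
  | nil => simp [unary]
  | cons b l ih => cases b <;> simp [unary] ; omega

theorem unary_replicate (k : ℕ) (l : List Bool) :
    unary (List.replicate k true ++ false :: l) = (k, l) := by
  induction k with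
  | zero => simp [unary]
  | succ k ih => simp [List.replicate_succ, unary, ih]

/-- The bit of `y`. -/
def beta (G : Oracle) (y : List Bool) : Bool :=
  xor ((unary y).2.headD false) (par G (unary y).1 (unary y).2.tail)

/-- The instance of `y`. -/
def inst (y : List Bool) : List Bool := (unary (unary y).2.tail).2

/-- The set `B`, masked by parities of the oracle. -/
def mask (G : Oracle) (B : Set (List Bool)) : Set (List Bool) :=
  {y | (inst y ∈ B ∧ beta G y = false) ∨ (inst y ∉ B ∧ beta G y = true)}

/-- Move the leading ones of register `0` to register `1`, and remove the following zero. -/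
def parse1 : Prog := .seq (.put 11 true) (.loop 11 (.take 0 (.clear 11) (.clear 11) (.put 1 true)))

/-- Remove the leading ones and the following zero. -/
def parse2 : Prog := .seq (.put 11 true) (.loop 11 (.take 0 (.clear 11) (.clear 11) .nop))

/-- Negate the answer. -/
def neg : Prog := .take 0 (.put 0 true) (.clear 0) (.clear 0)

/-- The program for `mask G B`. -/
def maskProg (u : Prog) : Prog :=
  .seq parse1 (.seq (.take 0 .nop .nop (.put 6 true)) (.seq (.copy 0 2) (.seq parProg
    (.seq parse2 (.seq (.clear 1) (.seq (.clear 2) (.take 6 u .nop (.seq u neg))))))))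

section

variable {G : Oracle} {s : ℕ} {x0 K W H z y a d q r go c : List Bool}

theorem reach_parse1 (l : List Bool) (hs : K.length + l.length ≤ s) :
    Reach G s (.loop 11 (.take 0 (.clear 11) (.clear 11) (.put 1 true)))
      (st [l, K, W, H, z, y, a, c, d, q, r, [true]])
      (7 * l.length + 7)
      (st [(unary l).2, K ++ List.replicate (unary l).1 true, W, H, z, y, a, c, d, q, r, []]) := by
  induction l generalizing K with
  | nil =>
    simp only [unary, List.replicate_zero, List.append_nil]
    have h1 : Reach G s (.take 0 (.clear 11) (.clear 11) (.put 1 true))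
        (st [[], K, W, H, z, y, a, c, d, q, r, [true]]) 5
        (st [[], K, W, H, z, y, a, c, d, q, r, []]) :=
      Reach.take_nil (T := 4) rfl (Reach.clear' (by simp))
    exact (Reach.loop_cons (by simp [st]) h1 (Reach.loop_nil rfl)).mono (by simp)
  | cons b l ih =>
    simp only [List.length_cons] at hs
    cases b
    · simp only [unary, List.replicate_zero, List.append_nil]
      have h1 : Reach G s (.take 0 (.clear 11) (.clear 11) (.put 1 true))
          (st [false :: l, K, W, H, z, y, a, c, d, q, r, [true]]) 5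
          (st [l, K, W, H, z, y, a, c, d, q, r, []]) :=
        Reach.take_false' (T := 4) (by simp) rfl (Reach.clear' (by simp))
      exact (Reach.loop_cons (by simp [st]) h1 (Reach.loop_nil rfl)).mono (by
        simp only [List.length_cons]; omega)
    · have h2 := ih (K := K ++ [true]) (by simp; omega)
      have e1 : K ++ [true] ++ List.replicate (unary l).1 true =
          K ++ List.replicate (unary (true :: l)).1 true := by
        simp [unary, List.replicate_succ]
      rw [e1] at h2
      have h1 : Reach G s (.take 0 (.clear 11) (.clear 11) (.put 1 true))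
          (st [true :: l, K, W, H, z, y, a, c, d, q, r, [true]]) 2
          (st [l, K ++ [true], W, H, z, y, a, c, d, q, r, [true]]) :=
        Reach.take_true' (T := 1) (by simp) rfl (Reach.put' true (by simp) (by simp [st]; omega))
      exact (Reach.loop_cons (by simp [st]) h1 h2).mono (by simp only [List.length_cons]; omega)

theorem reach_parse2 (l : List Bool) :
    Reach G s (.loop 11 (.take 0 (.clear 11) (.clear 11) .nop))
      (st [l, K, W, H, z, y, a, c, d, q, r, [true]])
      (7 * l.length + 7)
      (st [(unary l).2, K, W, H, z, y, a, c, d, q, r, []]) := by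
  induction l with
  | nil =>
    simp only [unary]
    have h1 : Reach G s (.take 0 (.clear 11) (.clear 11) .nop)
        (st [[], K, W, H, z, y, a, c, d, q, r, [true]]) 5
        (st [[], K, W, H, z, y, a, c, d, q, r, []]) :=
      Reach.take_nil (T := 4) rfl (Reach.clear' (by simp))
    exact (Reach.loop_cons (by simp [st]) h1 (Reach.loop_nil rfl)).mono (by simp)
  | cons b l ih =>
    cases b
    · simp only [unary]
      have h1 : Reach G s (.take 0 (.clear 11) (.clear 11) .nop)
          (st [false :: l, K, W, H, z, y, a, c, d, q, r, [true]]) 5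
          (st [l, K, W, H, z, y, a, c, d, q, r, []]) :=
        Reach.take_false' (T := 4) (by simp) rfl (Reach.clear' (by simp))
      exact (Reach.loop_cons (by simp [st]) h1 (Reach.loop_nil rfl)).mono (by
        simp only [List.length_cons]; omega)
    · have h1 : Reach G s (.take 0 (.clear 11) (.clear 11) .nop)
          (st [true :: l, K, W, H, z, y, a, c, d, q, r, [true]]) 2
          (st [l, K, W, H, z, y, a, c, d, q, r, [true]]) :=
        Reach.take_true' (T := 1) (by simp) rfl Reach.nop
      exact (Reach.loop_cons (by simp [st]) h1 ih).mono (by simp only [List.length_cons]; omega)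

end

theorem init_eq (x : List Bool) : init x = st [x, [], [], [], [], [], [], [], [], [], [], []] := by
  funext r
  rcases r with _ | r
  · rfl
  · have h1 : init x (r + 1) = [] := rfl
    rw [h1]
    rcases Nat.lt_or_ge r 11 with h | h
    · interval_cases r <;> rfl
    · simp only [st]
      rw [List.getElem?_eq_none (by simp; omega)]
      rfl

theorem Reach.neg {G : Oracle} {s : ℕ} (hs : 1 ≤ s) (τ : Store) :
    ∃ (T : ℕ) (ρ : Store), Reach G s OM.neg τ T ρ ∧ (ρ 0 ≠ [] ↔ ¬ (τ 0 ≠ [])) := by
  obtain ⟨l, hl⟩ : ∃ l, τ 0 = l := ⟨_, rfl⟩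
  rcases l with _ | ⟨b, l⟩
  · refine ⟨_, _, Reach.take_nil hl (Reach.put true (by rw [hl]; simpa using hs)), ?_⟩
    simp [hl]
  · rcases b with - | -
    · exact ⟨_, _, Reach.take_false hl (Reach.clear _ _), by simp [hl]⟩
    · exact ⟨_, _, Reach.take_true hl (Reach.clear _ _), by simp [hl]⟩

theorem reach_maskProg {G : Oracle} {s : ℕ} {u : Prog} (y : List Bool)
    (hs : 2 * y.length + 1 ≤ s) {t : ℕ} {τ : Store} (hu : Run G s u (init (inst y)) t τ) :
    ∃ (T : ℕ) (ρ : Store), Reach G s (maskProg u) (init y) T ρ ∧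
      (ρ 0 ≠ [] ↔ ((τ 0 ≠ [] ∧ beta G y = false) ∨ (¬ (τ 0 ≠ []) ∧ beta G y = true))) := by
  have hl := unary_le y
  obtain ⟨k, hk⟩ : ∃ k, (unary y).1 = k := ⟨_, rfl⟩
  obtain ⟨r1, hr1⟩ : ∃ r1, (unary y).2 = r1 := ⟨_, rfl⟩
  rw [hk, hr1] at hl
  have hinst : inst y = (unary r1.tail).2 := by rw [inst, hr1]
  have hbeta : beta G y = xor (r1.headD false) (par G k r1.tail) := by rw [beta, hr1, hk]
  rw [hinst] at hu
  rw [hbeta, init_eq]
  obtain ⟨w, hw⟩ : ∃ w, r1.tail = w := ⟨_, rfl⟩
  obtain ⟨p, hp⟩ : ∃ p, r1.headD false = p := ⟨_, rfl⟩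
  rw [hw] at hu ⊢
  rw [hp]
  have hwl : w.length ≤ r1.length := by rw [← hw]; simp
  have h1 : Reach G s (.put 11 true) (st [y, [], [], [], [], [], [], [], [], [], [], []]) 1
      (st [y, [], [], [], [], [], [], [], [], [], [], [true]]) :=
    Reach.put' true (by simp) (by simp [st]; omega)
  have h2 := reach_parse1 (G := G) (s := s) (K := []) (W := []) (H := []) (z := []) (y := [])
    (a := []) (d := []) (q := []) (r := []) (c := []) y (by simp; omega)
  rw [List.nil_append, hk, hr1] at h2
  have h3 : Reach G s (.take 0 .nop .nop (.put 6 true))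
      (st [r1, List.replicate k true, [], [], [], [], [], [], [], [], [], []]) 2
      (st [w, List.replicate k true, [], [], [], [], cc p, [], [], [], [], []]) := by
    rw [← hw, ← hp]
    rcases r1 with _ | ⟨b, l⟩
    · exact Reach.take_nil (T := 1) rfl Reach.nop
    · rcases b with - | -
      · exact Reach.take_false' (T := 1) (by simp) rfl Reach.nop
      · exact Reach.take_true' (T := 1) (by simp) rfl
          (Reach.put' true (by simp) (by simp [st]; omega))
  have h4 : Reach G s (.copy 0 2)
      (st [w, List.replicate k true, [], [], [], [], cc p, [], [], [], [], []]) (w.length + 1)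
      (st [w, List.replicate k true, w, [], [], [], cc p, [], [], [], [], []]) :=
    Reach.copy' (by simp) (by simp [st]; omega)
  have h5 := reach_parProg (G := G) (s := s) (x0 := w) (W := w) k p (by omega)
  have h6 : Reach G s (.put 11 true)
      (st [w, List.replicate k true, w, [], [], [], cc (xor p (par G k w)), [], [], [], [], []]) 1
      (st [w, List.replicate k true, w, [], [], [], cc (xor p (par G k w)), [], [], [], [],
        [true]]) :=
    Reach.put' true (by simp) (by simp [st]; omega)
  have h7 := reach_parse2 (G := G) (s := s) (K := List.replicate k true) (W := w) (H := [])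
    (z := []) (y := []) (a := cc (xor p (par G k w))) (d := []) (q := []) (r := []) (c := []) w
  have h8 : Reach G s (.clear 1)
      (st [(unary w).2, List.replicate k true, w, [], [], [], cc (xor p (par G k w)), [], [], [],
        [], []]) (3 * (List.replicate k true).length + 1)
      (st [(unary w).2, [], w, [], [], [], cc (xor p (par G k w)), [], [], [], [],
        []]) := Reach.clear' (by simp)
  have h9 : Reach G s (.clear 2)
      (st [(unary w).2, [], w, [], [], [], cc (xor p (par G k w)), [], [], [],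
        [], []]) (3 * w.length + 1)
      (st [(unary w).2, [], [], [], [], [], cc (xor p (par G k w)), [], [], [], [],
        []]) := Reach.clear' (by simp)
  rw [init_eq] at hu
  obtain ⟨T, ρ, h10, h11⟩ : ∃ (T : ℕ) (ρ : Store), Reach G s (.take 6 u .nop (.seq u neg))
      (st [(unary w).2, [], [], [], [], [], cc (xor p (par G k w)), [], [], [], [], []]) T ρ ∧
      (ρ 0 ≠ [] ↔ ((τ 0 ≠ [] ∧ xor p (par G k w) = false) ∨
        (¬ (τ 0 ≠ []) ∧ xor p (par G k w) = true))) := by
    obtain ⟨b, hb⟩ : ∃ b, xor p (par G k w) = b := ⟨_, rfl⟩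
    rw [hb]
    rcases b with - | -
    · exact ⟨_, _, Reach.take_nil rfl ⟨t, le_rfl, hu⟩, by simp⟩
    · obtain ⟨T, ρ, h, h'⟩ := Reach.neg (G := G) (s := s) (by omega) τ
      refine ⟨_, ρ, Reach.take_true' (by simp) rfl (Reach.seq ⟨t, le_rfl, hu⟩ h), ?_⟩
      rw [h']
      simp
  exact ⟨_, ρ, (h1.seq h2).seq (h3.seq (h4.seq (h5.seq ((h6.seq h7).seq (h8.seq (h9.seq h10)))))),
    h11⟩

/-- The masked set is in polynomial space. -/
theorem PSPACE.mask {G : Oracle} {B : Set (List Bool)} (hB : PSPACE G B) :
    PSPACE G (mask G B) := by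
  obtain ⟨u, c, hu⟩ := hB
  obtain ⟨c', hc'⟩ : PB fun n => (2 * n + 1) + (n ^ c + (c + 1)) :=
    (((PB.const 2).mul PB.id).add (PB.const 1)).add ((PB.id.pow c).add (PB.const _))
  refine ⟨maskProg u, c', fun y => ?_⟩
  obtain ⟨t, τ, h, hx⟩ := hu (inst y)
  have hlen : (inst y).length ≤ y.length := by
    have h1 := unary_le y
    have h2 := unary_le (unary y).2.tail
    have h3 : (unary y).2.tail.length ≤ (unary y).2.length := by simp
    rw [inst]
    omega
  have h1 : (inst y).length ^ c ≤ y.length ^ c := Nat.pow_le_pow_left hlen c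
  have h2 := hc' y.length
  simp only at h2
  obtain ⟨T, ρ, ⟨T', hT', h3⟩, h4⟩ := reach_maskProg (s := y.length ^ c' + c') y (by omega)
    (h.mono (by omega))
  refine ⟨T', ρ, h3, ?_⟩
  rw [h4, ← hx]
  rfl

end Pool.Agent.L0h34.OM
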